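import Mathlib

/-!
# Groups covered by the conjugates of an abelian subgroup
-/

set_option autoImplicit false

namespace Pool.Agent.V11238.MG

open Subgroup
open scoped commutatorElement

universe u

variable {G : Type u} [Group G]

/-- Every element of the group is conjugate to an element of `A`. -/
def CovAb (A : Subgroup G) : Prop := ∀ g : G, ∃ x : G, x * g * x⁻¹ ∈ A

/-- The subgroup `A` is abelian. -/
def AbSub (A : Subgroup G) : Prop := ∀ x ∈ A, ∀ y ∈ A, x * y = y * x

section

variable {A : Subgroup G} (hc : CovAb A)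

include hc in
theorem CovAb.decomp (g : G) : ∃ a ∈ A, ∃ y ∈ commutator G, g = a * y := by
  obtain ⟨x, hx⟩ := hc g
  refine ⟨_, hx, (x * g * x⁻¹)⁻¹ * g, ?_, by group⟩
  have h1 : ⁅x, g⁻¹⁆ ∈ commutator G := by
    rw [_root_.commutator_def]
    exact commutator_mem_commutator (mem_top _) (mem_top _)
  have h2 : (x * g * x⁻¹)⁻¹ * g = ⁅x, g⁻¹⁆ := by
    rw [commutatorElement_def]; group
  rw [h2]; exact h1

include hc in
theorem CovAb.sub : CovAb (A.subgroupOf (commutator G)) := by
  rintro ⟨g, hg⟩
  obtain ⟨x, hx⟩ := hc g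
  obtain ⟨a, ha, y, hy, rfl⟩ := hc.decomp x
  refine ⟨⟨y, hy⟩, ?_⟩
  rw [mem_subgroupOf]
  show y * g * y⁻¹ ∈ A
  have h1 : y * g * y⁻¹ = a⁻¹ * (a * y * g * (a * y)⁻¹) * a := by group
  rw [h1]
  exact mul_mem (mul_mem (inv_mem ha) hx) ha

include hc in
theorem CovAb.perfect (hA : AbSub A) : ⁅commutator G, commutator G⁆ = commutator G := by
  have hD : (⁅commutator G, commutator G⁆).Normal := inferInstance
  set D := ⁅commutator G, commutator G⁆ with hDdef
  have hle : D ≤ commutator G := commutator_le_left _ _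
  have hq : ∀ g : G, ∃ a ∈ A, (QuotientGroup.mk' D) g = QuotientGroup.mk' D a := by
    intro g
    obtain ⟨a, ha, y, hy, rfl⟩ := hc.decomp g
    obtain ⟨x, hx⟩ := hc.sub ⟨y, hy⟩
    rw [mem_subgroupOf] at hx
    have hx' : (x : G) * y * (x : G)⁻¹ ∈ A := hx
    have h1 : ⁅(x : G), y⁆ ∈ D := commutator_mem_commutator x.2 hy
    have h2 : QuotientGroup.mk' D y = QuotientGroup.mk' D ((x : G) * y * (x : G)⁻¹) := by
      have h3 : (x : G) * y * (x : G)⁻¹ = ⁅(x : G), y⁆ * y := by
        rw [commutatorElement_def]; group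
      have h4 : QuotientGroup.mk' D ⁅(x : G), y⁆ = 1 := (QuotientGroup.eq_one_iff _).2 h1
      rw [h3, map_mul, h4, one_mul]
    exact ⟨a * ((x : G) * y * (x : G)⁻¹), mul_mem ha hx', by rw [map_mul, h2, ← map_mul]⟩
  apply le_antisymm hle
  rw [_root_.commutator_def, commutator_le]
  intro g _ h _
  obtain ⟨a, ha, hga⟩ := hq g
  obtain ⟨b, hb, hhb⟩ := hq h
  rw [← QuotientGroup.eq_one_iff]
  show QuotientGroup.mk' D ⁅g, h⁆ = 1
  rw [map_commutatorElement, hga, hhb, ← map_commutatorElement,
    commutatorElement_eq_one_iff_mul_comm.2 (hA a ha b hb), map_one]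

include hc in
theorem CovAb.sub_ne_top (hne : A ≠ ⊤) : A.subgroupOf (commutator G) ≠ ⊤ := by
  intro h
  apply hne
  rw [subgroupOf_eq_top] at h
  rw [eq_top_iff]
  intro g _
  obtain ⟨a, ha, y, hy, rfl⟩ := hc.decomp g
  exact mul_mem ha (h hy)

include hc in
theorem CovAb.quot (N : Subgroup G) [N.Normal] : CovAb (A.map (QuotientGroup.mk' N)) := by
  intro q
  obtain ⟨g, rfl⟩ := QuotientGroup.mk'_surjective N q
  obtain ⟨x, hx⟩ := hc g
  exact ⟨QuotientGroup.mk' N x, _, hx, by simp⟩

theorem comap_map_core : (A.map (QuotientGroup.mk' A.normalCore)).comap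
    (QuotientGroup.mk' A.normalCore) = A := by
  rw [comap_map_eq, QuotientGroup.ker_mk', sup_eq_left]
  exact normalCore_le A

theorem quot_core : (A.map (QuotientGroup.mk' A.normalCore)).normalCore = ⊥ := by
  have h1 : ((A.map (QuotientGroup.mk' A.normalCore)).normalCore.comap
      (QuotientGroup.mk' A.normalCore)) ≤ A.normalCore := by
    apply normal_le_normalCore.2
    calc _ ≤ (A.map (QuotientGroup.mk' A.normalCore)).comap (QuotientGroup.mk' A.normalCore) :=
          comap_mono (normalCore_le _)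
      _ = A := comap_map_core
  rw [eq_bot_iff, ← map_comap_eq_self_of_surjective
    (QuotientGroup.mk'_surjective A.normalCore) (A.map (QuotientGroup.mk' A.normalCore)).normalCore]
  refine (map_mono h1).trans ?_
  rw [le_bot_iff, Subgroup.map_eq_bot_iff, QuotientGroup.ker_mk']

theorem quot_ne_top (hne : A ≠ ⊤) : A.map (QuotientGroup.mk' A.normalCore) ≠ ⊤ := by
  intro h
  apply hne
  rw [← comap_map_core (A := A), h, comap_top]

include hc in
theorem CovAb.center_le : center G ≤ A.normalCore := by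
  apply normal_le_normalCore.2
  intro z hz
  obtain ⟨x, hx⟩ := hc z
  have h1 : x * z * x⁻¹ = z := by
    rw [mem_center_iff.1 hz x, mul_inv_cancel_right]
  rwa [h1] at hx

end

/-- In a group where `[[c,h],h] = 1` always, centralisers are normal. -/
theorem engel_normal (hE : ∀ c h : G, Commute ⁅c, h⁆ h) {c x : G} (hcx : Commute c x) (g : G) :
    Commute (g * c * g⁻¹) x := by
  have h1 : ⁅c, g * x⁆ = ⁅c, g⁆ := by
    rw [commutatorElement_def, commutatorElement_def]
    have h2 : x * c⁻¹ = c⁻¹ * x := (hcx.symm.inv_right).eq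
    calc c * (g * x) * c⁻¹ * (g * x)⁻¹ = c * g * (x * c⁻¹) * x⁻¹ * g⁻¹ := by group
      _ = _ := by rw [h2]; group
  have h3 : Commute ⁅c, g⁆ (g * x) := by
    have := hE c (g * x)
    rwa [h1] at this
  have h4 : Commute ⁅c, g⁆ g := hE c g
  have h5 : Commute ⁅c, g⁆ x := by
    have : x = g⁻¹ * (g * x) := by group
    rw [this]
    exact h4.inv_right.mul_right h3
  have h6 : g * c * g⁻¹ = ⁅c, g⁆⁻¹ * c := by
    rw [commutatorElement_def]; group
  rw [h6]
  exact h5.inv_left.mul_left hcx

/-- A group in which centralisers are normal is not covered by the conjugates of a proper abelian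
subgroup. -/
theorem engel_not_cov (hE : ∀ c h : G, Commute ⁅c, h⁆ h) {A : Subgroup G} (hA : AbSub A)
    (hc : CovAb A) : A = ⊤ := by
  rw [eq_top_iff]
  intro g _
  -- every element of `A` is central
  have hcen : ∀ a ∈ A, ∀ y : G, Commute y a := by
    intro a ha y
    obtain ⟨x, hx⟩ := hc y
    have h1 : Commute (x * y * x⁻¹) a := hA _ hx _ ha
    have h2 := engel_normal hE h1 x⁻¹
    have h3 : x⁻¹ * (x * y * x⁻¹) * x⁻¹⁻¹ = y := by group
    rwa [h3] at h2
  obtain ⟨x, hx⟩ := hc g
  have h1 : x * g * x⁻¹ = g := by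
    have h2 := hcen _ hx x
    have h3 : x⁻¹ * (x * g * x⁻¹) * x = g := by group
    have h4 : x⁻¹ * (x * g * x⁻¹) * x = x * g * x⁻¹ := by
      rw [mul_assoc, ← h2.eq]; group
    rw [← h4, h3]
  rwa [h1] at hx

/-- Groups of exponent three satisfy the second Engel condition. -/
theorem engel_of_exp_three (h3 : ∀ g : G, g ^ 3 = 1) (c h : G) : Commute ⁅c, h⁆ h := by
  have key : ∀ x y : G, Commute (y⁻¹ * x * y) x := by
    intro x y
    have hy : y * y = y⁻¹ := by
      rw [eq_inv_iff_mul_eq_one]
      have := h3 y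
      simpa [pow_succ, mul_assoc] using this
    have hy' : y⁻¹ * y⁻¹ = y := by rw [← mul_inv_rev, hy, inv_inv]
    have e1 : x * (y⁻¹ * x * y) * (y * x * y⁻¹) = 1 := by
      calc x * (y⁻¹ * x * y) * (y * x * y⁻¹) = x * y⁻¹ * x * (y * y) * x * y⁻¹ := by group
        _ = (x * y⁻¹) * (x * y⁻¹) * (x * y⁻¹) := by rw [hy]; group
        _ = (x * y⁻¹) ^ 3 := by rw [pow_succ, pow_succ, pow_one]
        _ = 1 := h3 _
    have e2 : x * (y * x * y⁻¹) * (y⁻¹ * x * y) = 1 := by
      calc x * (y * x * y⁻¹) * (y⁻¹ * x * y) = x * y * x * (y⁻¹ * y⁻¹) * x * y := by group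
        _ = (x * y) * (x * y) * (x * y) := by rw [hy']; group
        _ = (x * y) ^ 3 := by rw [pow_succ, pow_succ, pow_one]
        _ = 1 := h3 _
    have e3 : (y⁻¹ * x * y) * (y * x * y⁻¹) = (y * x * y⁻¹) * (y⁻¹ * x * y) := by
      have := e1.trans e2.symm
      rw [mul_assoc x (y⁻¹ * x * y), mul_assoc x (y * x * y⁻¹)] at this
      exact mul_left_cancel this
    have e4 : y * ((y⁻¹ * x * y) * (y * x * y⁻¹)) * y⁻¹ =
        y * ((y * x * y⁻¹) * (y⁻¹ * x * y)) * y⁻¹ := by rw [e3]
    have e5 : y * ((y⁻¹ * x * y) * (y * x * y⁻¹)) * y⁻¹ = x * ((y * y) * x * (y * y)⁻¹) := by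
      group
    have e6 : y * ((y * x * y⁻¹) * (y⁻¹ * x * y)) * y⁻¹ = ((y * y) * x * (y * y)⁻¹) * x := by
      group
    rw [e5, e6, hy, inv_inv] at e4
    exact e4.symm
  have h1 := key h c⁻¹
  rw [inv_inv] at h1
  rw [commutatorElement_def]
  exact h1.mul_left (Commute.refl h).inv_left

/-- Local finiteness. -/
def LocFin (G : Type u) [Group G] : Prop := ∀ S : Finset G, (closure (S : Set G) : Set G).Finite

theorem LocFin.subgroup (h : LocFin G) (H : Subgroup G) : LocFin H := by
  classical
  intro S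
  apply Set.Finite.of_finite_image (f := Subtype.val) _ (Subtype.val_injective.injOn)
  have h1 := h (S.image Subtype.val)
  have h2 : (Subtype.val '' (closure (S : Set H) : Set H) : Set G) =
      (closure ((S.image Subtype.val : Finset G) : Set G) : Set G) := by
    have h3 := MonoidHom.map_closure H.subtype (S : Set H)
    rw [Finset.coe_image]
    exact congrArg (fun K : Subgroup G => (K : Set G)) h3
  rw [h2]; exact h1

theorem LocFin.quot (h : LocFin G) (N : Subgroup G) [N.Normal] : LocFin (G ⧸ N) := by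
  classical
  intro S
  have h1 := h (S.image Quotient.out)
  have h2 : (closure (S : Set (G ⧸ N)) : Set (G ⧸ N)) =
      QuotientGroup.mk' N '' (closure ((S.image Quotient.out : Finset G) : Set G) : Set G) := by
    have h3 := MonoidHom.map_closure (QuotientGroup.mk' N) ((S.image Quotient.out : Finset G) : Set G)
    have h4 : QuotientGroup.mk' N '' ((S.image Quotient.out : Finset G) : Set G) = S := by
      rw [Finset.coe_image, Set.image_image]
      have h5 : ∀ x : G ⧸ N, QuotientGroup.mk' N x.out = x := fun x => Quotient.out_eq' x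
      ext q
      constructor
      · rintro ⟨x, hx, rfl⟩
        show QuotientGroup.mk' N x.out ∈ (S : Set (G ⧸ N))
        rw [h5]; exact hx
      · intro hq
        exact ⟨q, hq, h5 q⟩
    rw [h4] at h3
    rw [← h3]; rfl
  rw [h2]; exact h1.image _

/-- A tower of countable sets whose union is a subgroup closed under the map `x`. -/
def tower (x : G → G) (g0 : G) : ℕ → Set G
  | 0 => {1, g0}
  | n + 1 => (tower x g0 n ∪ Set.image2 (fun a b => a * b) (tower x g0 n) (tower x g0 n)) ∪
      ((fun a => a⁻¹) '' tower x g0 n ∪ x '' tower x g0 n)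

theorem tower_countable (x : G → G) (g0 : G) (n : ℕ) : (tower x g0 n).Countable := by
  induction n with
  | zero => exact (Set.countable_singleton g0).insert 1
  | succ n ih => exact (ih.union (ih.image2 ih _)).union ((ih.image _).union (ih.image _))

theorem tower_mono (x : G → G) (g0 : G) : Monotone (tower x g0) :=
  monotone_nat_of_le_succ fun _ => Set.subset_union_left.trans Set.subset_union_left

/-- Passing to a countable subgroup. -/
theorem CovAb.countable {A : Subgroup G} (hc : CovAb A) (hne : A ≠ ⊤) :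
    ∃ H : Subgroup G, Countable H ∧ CovAb (A.subgroupOf H) ∧ A.subgroupOf H ≠ ⊤ := by
  obtain ⟨g0, hg0⟩ : ∃ g0, g0 ∉ A := by
    by_contra h
    push Not at h
    exact hne (eq_top_iff.2 fun g _ => h g)
  choose x hx using hc
  let H : Subgroup G :=
    { carrier := ⋃ n, tower x g0 n
      one_mem' := Set.mem_iUnion.2 ⟨0, Or.inl rfl⟩
      mul_mem' := by
        intro a b ha hb
        obtain ⟨m, hm⟩ := Set.mem_iUnion.1 ha
        obtain ⟨n, hn⟩ := Set.mem_iUnion.1 hb
        exact Set.mem_iUnion.2 ⟨max m n + 1, Or.inl (Or.inr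
          ⟨a, tower_mono x g0 (le_max_left m n) hm, b, tower_mono x g0 (le_max_right m n) hn,
            rfl⟩)⟩
      inv_mem' := by
        intro a ha
        obtain ⟨m, hm⟩ := Set.mem_iUnion.1 ha
        exact Set.mem_iUnion.2 ⟨m + 1, Or.inr (Or.inl ⟨a, hm, rfl⟩)⟩ }
  refine ⟨H, ?_, ?_, ?_⟩
  · have h2 : (H : Set G).Countable := Set.countable_iUnion (tower_countable x g0)
    exact h2.to_subtype
  · rintro ⟨g, hg⟩
    obtain ⟨n, hn⟩ := Set.mem_iUnion.1 hg
    have h1 : x g ∈ H := Set.mem_iUnion.2 ⟨n + 1, Or.inr (Or.inr ⟨g, hn, rfl⟩)⟩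
    exact ⟨⟨x g, h1⟩, hx g⟩
  · intro h
    apply hg0
    rw [subgroupOf_eq_top] at h
    exact h (Set.mem_iUnion.2 ⟨0, Or.inr rfl⟩)

/-- **The reduction.** -/
theorem abcov_main {A : Subgroup G} (hc : CovAb A) (hA : AbSub A) (hne : A ≠ ⊤) :
    ⁅commutator G, commutator G⁆ = commutator G ∧ ¬ Group.IsSolvable G ∧
    ∃ (K : Subgroup (commutator G)) (_ : K.Normal) (B : Subgroup (commutator G ⧸ K)),
      CovAb B ∧ AbSub B ∧ B ≠ ⊤ ∧ commutator (commutator G ⧸ K) = ⊤ ∧
        center (commutator G ⧸ K) = ⊥ ∧ B.normalCore = ⊥ := by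
  have hperf := hc.perfect hA
  have htop : commutator (commutator G) = ⊤ := by
    rw [eq_top_iff]
    intro x _
    have h1 : (x : G) ∈ ⁅commutator G, commutator G⁆ := by rw [hperf]; exact x.2
    rw [← map_subtype_commutator] at h1
    obtain ⟨y, hy, hyx⟩ := h1
    have h2 : y = x := Subtype.ext hyx
    rwa [h2] at hy
  refine ⟨hperf, ?_, ?_⟩
  · intro hs
    obtain ⟨n, hn⟩ := hs.solvable
    have h1 : ∀ n, commutator G ≤ derivedSeries G n := by
      intro n
      induction n with
      | zero => rw [derivedSeries_zero]; exact le_top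
      | succ n ih =>
        rw [derivedSeries_succ]
        calc commutator G = ⁅commutator G, commutator G⁆ := hperf.symm
          _ ≤ _ := commutator_mono ih ih
    have h2 := h1 n
    rw [hn, le_bot_iff] at h2
    apply hne
    rw [eq_top_iff]
    intro g _
    obtain ⟨a, ha, y, hy, rfl⟩ := hc.decomp g
    rw [h2, mem_bot] at hy
    rw [hy, mul_one]; exact ha
  · set B := A.subgroupOf (commutator G) with hB
    have hcB : CovAb B := hc.sub
    have hAB : AbSub B := fun x hx y hy => Subtype.ext (hA _ hx _ hy)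
    have hneB : B ≠ ⊤ := hc.sub_ne_top hne
    have hcQ := hcB.quot B.normalCore
    have hcore := quot_core (A := B)
    refine ⟨B.normalCore, inferInstance, B.map (QuotientGroup.mk' B.normalCore), hcQ, ?_,
      quot_ne_top hneB, ?_, ?_, hcore⟩
    · rintro _ ⟨x, hx, rfl⟩ _ ⟨y, hy, rfl⟩
      rw [← map_mul, ← map_mul, hAB x hx y hy]
    · have h1 : commutator (commutator G ⧸ B.normalCore) =
          (commutator (commutator G)).map (QuotientGroup.mk' B.normalCore) := by
        rw [_root_.commutator_def (commutator G ⧸ B.normalCore),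
          _root_.commutator_def (commutator G), map_commutator,
          map_top_of_surjective _ (QuotientGroup.mk'_surjective _)]
      rw [h1, htop]
      exact map_top_of_surjective _ (QuotientGroup.mk'_surjective _)
    · rw [eq_bot_iff, ← hcore]
      exact hcQ.center_le

end Pool.Agent.V11238.MG
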