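import Pool.Agent.V11238.MG.Extra

/-!
# Complete groups and groups with cyclic proper subgroups
-/

set_option autoImplicit false

namespace Pool.Agent.V11238.MG

open Subgroup

universe u

variable {G : Type u} [Group G]

/-- A chain of successive `n`-th roots inside a group whose proper subgroups are cyclic stops. -/
theorem root_chain (hnc : ¬ ∀ x y : G, x * y = y * x) (h2 : ∀ H : Subgroup G, H ≠ ⊤ → IsCyclic H)
    {n : ℕ} (h : ℕ → G) (hh : ∀ k, h (k + 1) ^ n = h k) :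
    ∃ s : ℤ, (h 0) ^ ((n : ℤ) * s - 1) = 1 := by
  have hmono : Monotone fun k => zpowers (h k) := by
    apply monotone_nat_of_le_succ
    intro k
    rw [zpowers_le, ← hh k]
    exact npow_mem_zpowers _ _
  have hmem : ∀ x, x ∈ (⨆ k, zpowers (h k)) ↔ ∃ k, x ∈ zpowers (h k) := fun x =>
    mem_iSup_of_directed hmono.directed_le
  have hne : (⨆ k, zpowers (h k)) ≠ ⊤ := by
    intro htop
    apply hnc
    intro x y
    obtain ⟨a, ha⟩ := (hmem x).1 (by rw [htop]; trivial)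
    obtain ⟨b, hb⟩ := (hmem y).1 (by rw [htop]; trivial)
    obtain ⟨i, hi⟩ := mem_zpowers_iff.1 (hmono (le_max_left a b) ha)
    obtain ⟨j, hj⟩ := mem_zpowers_iff.1 (hmono (le_max_right a b) hb)
    rw [← hi, ← hj, ← zpow_add, ← zpow_add, add_comm]
  have hcyc := h2 _ hne
  obtain ⟨⟨c, hc0⟩, hc⟩ := IsCyclic.exists_generator (α := (⨆ k, zpowers (h k) : Subgroup G))
  obtain ⟨k, hk⟩ := (hmem c).1 hc0
  have h3 : h (k + 1) ∈ (⨆ k, zpowers (h k)) := (hmem _).2 ⟨k + 1, mem_zpowers _⟩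
  obtain ⟨j, hj⟩ := mem_zpowers_iff.1 (hc ⟨_, h3⟩)
  have hj' : c ^ j = h (k + 1) := congrArg Subtype.val hj
  have h4 : h (k + 1) ∈ zpowers (h k) := by
    rw [← hj']
    exact Subgroup.zpow_mem _ hk j
  obtain ⟨s, hs⟩ := mem_zpowers_iff.1 h4
  refine ⟨s, ?_⟩
  have h5 : (h (k + 1)) ^ ((n : ℤ) * s - 1) = 1 := by
    rw [zpow_sub, zpow_mul, zpow_natCast, hh k, hs]
    group
  have h6 : h 0 ∈ zpowers (h (k + 1)) := hmono (Nat.zero_le _) (mem_zpowers _)
  obtain ⟨t, ht⟩ := mem_zpowers_iff.1 h6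
  rw [← ht, ← zpow_mul, mul_comm t, zpow_mul, h5, one_zpow]

/-- An infinite finitely generated non-cyclic group whose proper subgroups are cyclic is not
complete. -/
theorem three_not_complete [Group.FG G] [Infinite G] (h1 : ¬ IsCyclic G)
    (h2 : ∀ H : Subgroup G, H ≠ ⊤ → IsCyclic H) :
    ¬ ∀ (g : G) (m : ℕ), 1 ≤ m → ∃ h : G, h ^ m = g := by
  intro hcomp
  obtain ⟨g, hg⟩ := exists_ne (1 : G)
  have hn : ∃ n : ℕ, 1 ≤ n ∧ ∀ s : ℤ, ¬ ((orderOf g : ℤ) ∣ (n : ℤ) * s - 1) := by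
    by_cases h0 : orderOf g = 0
    · refine ⟨2, by norm_num, fun s hs => ?_⟩
      rw [h0] at hs
      have : (2 : ℤ) * s - 1 = 0 := by simpa using hs
      omega
    · refine ⟨orderOf g, by omega, fun s hs => ?_⟩
      have h3 : (orderOf g : ℤ) ∣ 1 := by
        have h4 : (orderOf g : ℤ) ∣ (orderOf g : ℤ) * s := dvd_mul_right _ _
        have := dvd_sub h4 hs
        simpa using this
      have h4 : orderOf g ∣ 1 := by exact_mod_cast h3
      exact hg (orderOf_eq_one_iff.1 (Nat.dvd_one.1 h4))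
  obtain ⟨n, hn1, hn⟩ := hn
  choose r hr using fun x : G => hcomp x n hn1
  let h : ℕ → G := fun k => Nat.rec g (fun _ y => r y) k
  have hh : ∀ k, h (k + 1) ^ n = h k := fun k => hr (h k)
  obtain ⟨s, hs⟩ := root_chain (not_comm h1 h2) h2 h hh
  exact hn s (orderOf_dvd_iff_zpow_eq_one.2 hs)

end Pool.Agent.V11238.MG
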