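import Pool.Agent.V11238.MG.FP

/-!
# Groups with finitely many conjugacy classes
-/

set_option autoImplicit false

namespace Pool.Agent.V11238.MG

open Subgroup

universe u

variable {G : Type u} [Group G]

theorem mem_iff_mk (K : Subgroup G) (hK : K.Normal) (g : G) :
    g ∈ K ↔ ∃ x ∈ K, ConjClasses.mk x = ConjClasses.mk g := by
  constructor
  · intro h; exact ⟨g, h, rfl⟩
  · rintro ⟨x, hx, h⟩
    obtain ⟨c, hc⟩ := isConj_iff.1 (ConjClasses.mk_eq_mk_iff_isConj.1 h)
    rw [← hc]
    exact hK.conj_mem x hx c

/-- A group with finitely many conjugacy classes has finitely many normal subgroups. -/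
theorem finite_normal [Finite (ConjClasses G)] : Finite {N : Subgroup G // N.Normal} := by
  refine Finite.of_injective (β := Set (ConjClasses G))
    (fun N => {c | ∃ x ∈ N.1, ConjClasses.mk x = c}) ?_
  rintro ⟨N, hN⟩ ⟨M, hM⟩ h
  apply Subtype.ext
  ext g
  have h1 : ConjClasses.mk g ∈ {c | ∃ x ∈ N, ConjClasses.mk x = c} ↔
      ConjClasses.mk g ∈ {c | ∃ x ∈ M, ConjClasses.mk x = c} := by
    simp only at h
    rw [h]
  exact (mem_iff_mk N hN g).trans (h1.trans (mem_iff_mk M hM g).symm)

/-- A normal subgroup of a group with finitely many conjugacy classes is the normal closure of a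
finite set. -/
theorem fng [Finite (ConjClasses G)] (N : Subgroup G) [hN : N.Normal] :
    N.IsFinitelyNormallyGenerated := by
  refine ⟨{g | g ∈ N ∧ ∃ c : ConjClasses G, g = Quotient.out c}, ?_, ?_⟩
  · refine (Set.finite_range fun c : ConjClasses G => (Quotient.out c : G)).subset ?_
    rintro g ⟨-, c, rfl⟩
    exact ⟨c, rfl⟩
  · apply le_antisymm
    · apply normalClosure_le_normal
      rintro g ⟨hg, -⟩
      exact hg
    · intro g hg
      have h1 : ConjClasses.mk (Quotient.out (ConjClasses.mk g)) = ConjClasses.mk g :=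
        Quotient.out_eq _
      have h2 : Quotient.out (ConjClasses.mk g) ∈ N :=
        (mem_iff_mk N hN _).2 ⟨g, hg, h1.symm⟩
      have h3 : Quotient.out (ConjClasses.mk g) ∈ normalClosure
          {g | g ∈ N ∧ ∃ c : ConjClasses G, g = Quotient.out c} :=
        subset_normalClosure ⟨h2, _, rfl⟩
      exact (mem_iff_mk _ normalClosure_normal g).2 ⟨_, h3, h1⟩

theorem finite_conj_of_surjective {H : Type*} [Group H] [Finite (ConjClasses G)] (f : G →* H)
    (hf : Function.Surjective f) : Finite (ConjClasses H) :=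
  Finite.of_surjective _ (ConjClasses.map_surjective hf)

/-- A normal subgroup of finite index of a group with finitely many conjugacy classes has finitely
many conjugacy classes. -/
theorem finite_conj_subgroup [Finite (ConjClasses G)] (M : Subgroup G) [hM : M.Normal]
    [hMf : M.FiniteIndex] : Finite (ConjClasses M) := by
  classical
  have hfin : Finite (G ⧸ M) := inferInstance
  -- a representative in `M` of each class which meets `M`
  let rep : ConjClasses G → M := fun c =>
    if h : ∃ x : M, ConjClasses.mk (x : G) = c then h.choose else 1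
  have hrep : ∀ x : M, ConjClasses.mk ((rep (ConjClasses.mk (x : G)) : M) : G) =
      ConjClasses.mk (x : G) := by
    intro x
    have h : ∃ y : M, ConjClasses.mk (y : G) = ConjClasses.mk (x : G) := ⟨x, rfl⟩
    simp only [rep, dif_pos h]
    exact h.choose_spec
  let F : ConjClasses G × (G ⧸ M) → ConjClasses M := fun p =>
    ConjClasses.mk ⟨(p.2.out)⁻¹ * (rep p.1 : G) * (p.2.out)⁻¹⁻¹,
      hM.conj_mem _ (rep p.1).2 _⟩
  refine Finite.of_surjective F fun c => ?_
  obtain ⟨x, rfl⟩ := ConjClasses.exists_rep c
  obtain ⟨g, hg⟩ := isConj_iff.1 (ConjClasses.mk_eq_mk_iff_isConj.1 (hrep x))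
  -- `g * rep * g⁻¹ = x`
  let q : G ⧸ M := (g⁻¹ : G)
  have hq : (q.out)⁻¹ * g⁻¹ ∈ M := by
    rw [← QuotientGroup.eq]; exact QuotientGroup.out_eq' q
  have hk : g * q.out ∈ M := by
    have := M.inv_mem hq
    simpa using this
  refine ⟨(ConjClasses.mk (x : G), q), ?_⟩
  apply ConjClasses.mk_eq_mk_iff_isConj.2
  refine isConj_iff.2 ⟨⟨g * q.out, hk⟩, ?_⟩
  apply Subtype.ext
  simp only [Subgroup.coe_mul, Subgroup.coe_inv]
  refine Eq.trans ?_ hg
  simp only [mul_assoc, mul_inv_rev, inv_inv, mul_inv_cancel_left]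

/-- The intersection of the normal subgroups of finite index. -/
def resid (G : Type u) [Group G] : Subgroup G := ⨅ N : {N : Subgroup G // N.Normal ∧ N.FiniteIndex}, N.1

instance resid_normal : (resid G).Normal := by
  unfold resid
  refine normal_iInf_normal fun N => N.2.1

theorem resid_finiteIndex [Finite (ConjClasses G)] : (resid G).FiniteIndex := by
  have h1 := finite_normal (G := G)
  have h2 : Finite {N : Subgroup G // N.Normal ∧ N.FiniteIndex} :=
    Finite.of_injective (fun N => (⟨N.1, N.2.1⟩ : {N : Subgroup G // N.Normal}))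
      (fun a b h => Subtype.ext (congrArg (fun x => x.1) h))
  unfold resid
  exact finiteIndex_iInf fun N => N.2.2

theorem resid_no_finiteIndex [Finite (ConjClasses G)] (H : Subgroup (resid G))
    [hH : H.FiniteIndex] : H = ⊤ := by
  have h0 := resid_finiteIndex (G := G)
  have h1 : (H.map (resid G).subtype).FiniteIndex := by
    refine ⟨?_⟩
    rw [index_map_subtype]
    exact mul_ne_zero hH.index_ne_zero h0.index_ne_zero
  have h2 : (H.map (resid G).subtype).normalCore.FiniteIndex := inferInstance
  have h3 : resid G ≤ (H.map (resid G).subtype).normalCore :=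
    iInf_le (fun N : {N : Subgroup G // N.Normal ∧ N.FiniteIndex} => N.1)
      ⟨_, normalCore_normal _, h2⟩
  rw [eq_top_iff]
  rintro ⟨x, hx⟩ -
  obtain ⟨y, hy, hyx⟩ := (h3.trans (normalCore_le _)) hx
  have : y = ⟨x, hx⟩ := Subtype.ext hyx
  rwa [this] at hy

theorem simple_of_maximal (K : Subgroup G) [hK : K.Normal] (hne : K ≠ ⊤)
    (hmax : ∀ L : Subgroup G, L.Normal → K ≤ L → L ≠ ⊤ → L = K) : IsSimpleGroup (G ⧸ K) := by
  have hnt : Nontrivial (G ⧸ K) := by
    rw [QuotientGroup.nontrivial_iff]; exact hne
  refine ⟨fun N hN => ?_⟩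
  by_cases h : N.comap (QuotientGroup.mk' K) = ⊤
  · right
    rw [← map_comap_eq_self_of_surjective (QuotientGroup.mk'_surjective K) N, h]
    exact map_top_of_surjective _ (QuotientGroup.mk'_surjective K)
  · left
    have h1 := hmax _ (hN.comap _) (by
      intro x hx
      rw [mem_comap]
      have : QuotientGroup.mk' K x = 1 := (QuotientGroup.eq_one_iff x).2 hx
      rw [this]; exact N.one_mem) h
    rw [← map_comap_eq_self_of_surjective (QuotientGroup.mk'_surjective K) N, h1]
    rw [Subgroup.map_eq_bot_iff, QuotientGroup.ker_mk']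

theorem exists_simple_quotient [Finite (ConjClasses G)] [Nontrivial G] :
    ∃ (K : Subgroup G) (_ : K.Normal), IsSimpleGroup (G ⧸ K) := by
  have h1 := finite_normal (G := G)
  have h2 : ({K : Subgroup G | K.Normal ∧ K ≠ ⊤}).Finite := by
    refine (Set.finite_range fun N : {N : Subgroup G // N.Normal} => N.1).subset ?_
    rintro K ⟨hK, -⟩
    exact ⟨⟨K, hK⟩, rfl⟩
  obtain ⟨K, hK⟩ := h2.exists_maximal ⟨⊥, normal_bot, bot_ne_top⟩
  obtain ⟨⟨hK1, hK2⟩, hK3⟩ := hK
  refine ⟨K, hK1, simple_of_maximal K hK2 fun L hL hKL hne => ?_⟩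
  exact le_antisymm (hK3 ⟨hL, hne⟩ hKL) hKL

/-- **Finitely many conjugacy classes: reduction to simple groups.** -/
theorem conj_main [hG : Group.IsFinitelyPresented G] [hinf : Infinite G]
    [hc : Finite (ConjClasses G)] :
    (resid G).FiniteIndex ∧ (∀ H : Subgroup (resid G), H.FiniteIndex → H = ⊤) ∧
    (∃ (K : Subgroup (resid G)) (_ : K.Normal), IsSimpleGroup (resid G ⧸ K)) ∧
    ∀ (K : Subgroup (resid G)) [K.Normal], IsSimpleGroup (resid G ⧸ K) →
      Infinite (resid G ⧸ K) ∧ Group.IsFinitelyPresented (resid G ⧸ K) ∧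
        Finite (ConjClasses (resid G ⧸ K)) := by
  have h0 := resid_finiteIndex (G := G)
  have h1 : Finite (ConjClasses (resid G)) := finite_conj_subgroup (resid G)
  have h2 : Infinite (resid G) := by
    by_contra hcon
    rw [not_infinite_iff_finite] at hcon
    have : Finite G := by
      have h4 : Nat.card (resid G) * (resid G).index = Nat.card G := card_mul_index _
      have h5 : Nat.card G ≠ 0 := by
        rw [← h4]
        exact mul_ne_zero Nat.card_pos.ne' h0.index_ne_zero
      exact Nat.finite_of_card_ne_zero h5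
    exact not_finite G
  have h3 : Nontrivial (resid G) := inferInstance
  have h4 : Group.IsFinitelyPresented (resid G) := fp_of_finiteIndex (resid G)
  refine ⟨h0, fun H hH => resid_no_finiteIndex H, exists_simple_quotient, ?_⟩
  intro K hK hs
  refine ⟨?_, Group.IsFinitelyPresented.quotient K (fng K),
    finite_conj_of_surjective _ (QuotientGroup.mk'_surjective K)⟩
  by_contra hcon
  rw [not_infinite_iff_finite] at hcon
  have h5 : K.FiniteIndex := finiteIndex_of_finite_quotient
  have h6 := resid_no_finiteIndex K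
  have h7 := hs.toNontrivial
  rw [QuotientGroup.nontrivial_iff] at h7
  exact h7 h6

end Pool.Agent.V11238.MG
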