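import Pool.Agent.V11238.MG.Conj

/-!
# Groups covered by the conjugates of a cyclic subgroup
-/

set_option autoImplicit false

namespace Pool.Agent.V11238.MG

open Subgroup
open scoped commutatorElement

universe u

variable {G : Type u} [Group G]

/-- Every element is conjugate to a power of `a`. -/
def Cov (a : G) : Prop := ∀ g : G, ∃ (n : ℤ) (x : G), g = x * a ^ n * x⁻¹

theorem exists_gen (N : Subgroup G) (a : G) :
    ∃ b, b ∈ zpowers a ∧ b ∈ N ∧ ∀ x ∈ zpowers a, x ∈ N → x ∈ zpowers b := by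
  obtain ⟨⟨⟨b, hb⟩, hbN⟩, h⟩ := IsCyclic.exists_generator (α := N.subgroupOf (zpowers a))
  refine ⟨b, hb, hbN, fun x hx hxN => ?_⟩
  obtain ⟨k, hk⟩ := mem_zpowers_iff.1 (h ⟨⟨x, hx⟩, hxN⟩)
  rw [mem_zpowers_iff]
  exact ⟨k, congrArg (fun y => ((y : zpowers a) : G)) (congrArg Subtype.val hk)⟩

theorem Cov.normal {a : G} (h : Cov a) (N : Subgroup G) [hN : N.Normal] :
    ∃ b, b ∈ N ∧ N = normalClosure {b} := by
  obtain ⟨b, hb, hbN, hgen⟩ := exists_gen N a
  refine ⟨b, hbN, le_antisymm ?_ ?_⟩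
  · intro g hg
    obtain ⟨n, x, rfl⟩ := h g
    have h1 : a ^ n ∈ N := by
      have := hN.conj_mem _ hg x⁻¹
      simpa [mul_assoc] using this
    have h2 := hgen _ (zpow_mem_zpowers a n) h1
    obtain ⟨k, hk⟩ := mem_zpowers_iff.1 h2
    rw [← hk]
    exact normalClosure_normal.conj_mem _
      (Subgroup.zpow_mem _ (subset_normalClosure (Set.mem_singleton b)) k) x
  · apply normalClosure_le_normal
    simpa using hbN

theorem Cov.fng {a : G} (h : Cov a) (N : Subgroup G) [N.Normal] :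
    N.IsFinitelyNormallyGenerated := by
  obtain ⟨b, -, hb⟩ := h.normal N
  exact ⟨{b}, Set.finite_singleton b, hb.symm⟩

theorem Cov.quot {a : G} (h : Cov a) (N : Subgroup G) [N.Normal] :
    Cov (QuotientGroup.mk' N a) := by
  intro q
  obtain ⟨g, rfl⟩ := QuotientGroup.mk'_surjective N q
  obtain ⟨n, x, hx⟩ := h g
  exact ⟨n, QuotientGroup.mk' N x, by rw [← map_zpow, ← map_inv, ← map_mul, ← map_mul, ← hx]⟩

/-- A nontrivial normal subgroup has a maximal proper subgroup among the normal subgroups. -/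
theorem Cov.exists_max {a : G} (h : Cov a) (M : Subgroup G) [hM : M.Normal] (hne : M ≠ ⊥) :
    ∃ N : Subgroup G, N.Normal ∧ N < M ∧
      ∀ L : Subgroup G, L.Normal → N ≤ L → L ≤ M → L = N ∨ L = M := by
  obtain ⟨b, hbM, hb⟩ := h.normal M
  obtain ⟨N, -, hN⟩ := zorn_le_nonempty₀ {N : Subgroup G | N.Normal ∧ N < M} (by
    intro c hc hchain N0 hN0
    have hdir : DirectedOn (· ≤ ·) c := hchain.directedOn
    have hmem : ∀ x, x ∈ sSup c ↔ ∃ N ∈ c, x ∈ N := fun x =>
      mem_sSup_of_directedOn ⟨N0, hN0⟩ hdir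
    refine ⟨sSup c, ⟨⟨fun x hx g => ?_⟩, ?_⟩, fun z hz => le_sSup hz⟩
    · obtain ⟨N, hN, hxN⟩ := (hmem x).1 hx
      exact (hmem _).2 ⟨N, hN, (hc hN).1.conj_mem x hxN g⟩
    · refine lt_of_le_of_ne (sSup_le fun N hN => (hc hN).2.le) fun heq => ?_
      have h1 : b ∈ sSup c := by rw [heq]; exact hbM
      obtain ⟨N, hN, hbN⟩ := (hmem b).1 h1
      have h2 : M ≤ N := by
        rw [hb]
        have := (hc hN).1
        apply normalClosure_le_normal
        simpa using hbN
      exact absurd (hc hN).2 (not_lt_of_ge h2)) ⊥ ⟨normal_bot, bot_lt_iff_ne_bot.2 hne⟩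
  refine ⟨N, hN.prop.1, hN.prop.2, fun L hL hNL hLM => ?_⟩
  rcases eq_or_lt_of_le hLM with h1 | h1
  · exact Or.inr h1
  · exact Or.inl (le_antisymm (hN.le_of_ge ⟨hL, h1⟩ hNL) hNL)

section Minimal

variable {a : G} (h : Cov a) (hne : commutator G ≠ ⊥)
  (hmin : ∀ L : Subgroup G, L.Normal → L ≤ commutator G → L = ⊥ ∨ L = commutator G)

include h in
theorem Cov.decomp (g : G) : ∃ (y : G) (i : ℤ), y ∈ commutator G ∧ g = y * a ^ i := by
  obtain ⟨n, x, rfl⟩ := h g
  refine ⟨x * a ^ n * x⁻¹ * (a ^ n)⁻¹, n, ?_, by group⟩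
  have h1 : ⁅x, a ^ n⁆ ∈ commutator G := by
    rw [_root_.commutator_def]
    exact commutator_mem_commutator (mem_top _) (mem_top _)
  exact h1

include h hne in
theorem Cov.exists_pow : ∃ n : ℤ, n ≠ 0 ∧ a ^ n ∈ commutator G := by
  obtain ⟨⟨g, hg⟩, hg1⟩ := (ne_bot_iff_exists_ne_one (H := commutator G)).1 hne
  obtain ⟨n, x, rfl⟩ := h g
  have h1 : a ^ n ∈ commutator G := by
    have := (inferInstance : (commutator G).Normal).conj_mem _ hg x⁻¹
    simpa [mul_assoc] using this
  refine ⟨n, ?_, h1⟩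
  rintro rfl
  exact hg1 (Subtype.ext (by simp))

include h hne in
theorem Cov.finiteIndex : (commutator G).FiniteIndex := by
  obtain ⟨n, hn, hmem⟩ := h.exists_pow hne
  have hfin : IsOfFinOrder (QuotientGroup.mk' (commutator G) a) := by
    rw [isOfFinOrder_iff_zpow_eq_one]
    refine ⟨n, hn, ?_⟩
    rw [← map_zpow]
    exact (QuotientGroup.eq_one_iff _).2 hmem
  have h1 : (zpowers (QuotientGroup.mk' (commutator G) a) : Set (G ⧸ commutator G)).Finite :=
    finite_zpowers.2 hfin
  have h2 : (Set.univ : Set (G ⧸ commutator G)).Finite := by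
    refine h1.subset fun q _ => ?_
    obtain ⟨g, rfl⟩ := QuotientGroup.mk'_surjective _ q
    obtain ⟨y, i, hy, rfl⟩ := h.decomp g
    have h3 : QuotientGroup.mk' (commutator G) y = 1 := (QuotientGroup.eq_one_iff _).2 hy
    rw [map_mul, h3, one_mul, map_zpow]
    exact zpow_mem_zpowers _ _
  have h3 : Finite (G ⧸ commutator G) := Set.finite_univ_iff.1 h2
  exact finiteIndex_of_finite_quotient

include h in
theorem Cov.sub : ∃ b : commutator G, (b : G) ∈ zpowers a ∧ Cov b := by
  obtain ⟨b, hb, hbM, hgen⟩ := exists_gen (commutator G) a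
  refine ⟨⟨b, hbM⟩, hb, ?_⟩
  rintro ⟨g, hg⟩
  obtain ⟨n, x, hx⟩ := h g
  have h1 : a ^ n ∈ commutator G := by
    have := (inferInstance : (commutator G).Normal).conj_mem _ hg x⁻¹
    rw [hx] at this
    simpa [mul_assoc] using this
  obtain ⟨j, hj⟩ := mem_zpowers_iff.1 (hgen _ (zpow_mem_zpowers a n) h1)
  obtain ⟨y, i, hy, hxy⟩ := h.decomp x
  refine ⟨j, ⟨y, hy⟩, Subtype.ext ?_⟩
  show g = y * b ^ j * y⁻¹
  rw [hj, hx, hxy]
  group

include h hne hmin in
theorem Cov.simple : IsSimpleGroup (commutator G) := by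
  have hnt : Nontrivial (commutator G) := (nontrivial_iff_ne_bot _).2 hne
  refine ⟨fun L hL => ?_⟩
  obtain ⟨b, hb, hcov⟩ := h.sub
  obtain ⟨m, hm⟩ := mem_zpowers_iff.1 hb
  have hnorm : (L.map (commutator G).subtype).Normal := by
    refine ⟨fun x hx g => ?_⟩
    obtain ⟨l, hl, rfl⟩ := hx
    obtain ⟨y, i, hy, rfl⟩ := h.decomp g
    obtain ⟨j, y', hy'⟩ := hcov l
    have hbj : b ^ j ∈ L := by
      have := hL.conj_mem _ hl y'⁻¹
      rw [hy'] at this
      simpa [mul_assoc] using this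
    have hz : y * (a ^ i * (y' : G) * (a ^ i)⁻¹) ∈ commutator G :=
      mul_mem hy ((inferInstance : (commutator G).Normal).conj_mem _ y'.2 _)
    refine ⟨⟨_, hz⟩ * b ^ j * ⟨_, hz⟩⁻¹, hL.conj_mem _ hbj _, ?_⟩
    have h1 : ((commutator G).subtype l) = (y' : G) * (b : G) ^ j * (y' : G)⁻¹ := by
      rw [hy']; simp
    rw [h1]
    show (y * (a ^ i * (y' : G) * (a ^ i)⁻¹)) * (b : G) ^ j * (y * (a ^ i * (y' : G) * (a ^ i)⁻¹))⁻¹ =
      y * a ^ i * ((y' : G) * (b : G) ^ j * (y' : G)⁻¹) * (y * a ^ i)⁻¹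
    have h2 : (a ^ i)⁻¹ * (b : G) ^ j * a ^ i = (b : G) ^ j := by
      rw [← hm]; group
    calc _ = y * a ^ i * (y' : G) * ((a ^ i)⁻¹ * (b : G) ^ j * a ^ i) * (y' : G)⁻¹ * (y * a ^ i)⁻¹ := by
          group
      _ = _ := by rw [h2]; group
  rcases hmin _ hnorm (map_subtype_le L) with h1 | h1
  · left
    exact (map_eq_bot_iff_of_injective L (subtype_injective _)).1 h1
  · right
    rw [eq_top_iff]
    intro x _
    have h2 : (x : G) ∈ L.map (commutator G).subtype := by rw [h1]; exact x.2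
    obtain ⟨y, hy, hyx⟩ := h2
    have h3 : y = x := Subtype.ext hyx
    rwa [h3] at hy

include hne in
theorem exists_not_comm : ¬ ∀ x y : G, x * y = y * x := by
  intro hc
  apply hne
  rw [eq_bot_iff, _root_.commutator_def, commutator_le]
  intro x _ y _
  rw [mem_bot, commutatorElement_eq_one_iff_mul_comm]
  exact hc x y

include h hne hmin in
theorem Cov.not_cyclic : ¬ IsCyclic (commutator G) := by
  intro hc
  have hs := h.simple hne hmin
  have hcomm : ∀ x y : commutator G, x * y = y * x := by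
    obtain ⟨c, hc⟩ := IsCyclic.exists_generator (α := commutator G)
    intro x y
    obtain ⟨i, rfl⟩ := mem_zpowers_iff.1 (hc x)
    obtain ⟨j, rfl⟩ := mem_zpowers_iff.1 (hc y)
    rw [← zpow_add, ← zpow_add, add_comm]
  obtain ⟨b, hb, hcov⟩ := h.sub
  have hn : (zpowers b).Normal := ⟨fun x hx g => by rw [hcomm g x, mul_inv_cancel_right]; exact hx⟩
  rcases hs.eq_bot_or_eq_top_of_normal _ hn with h1 | h1
  · rw [zpowers_eq_bot] at h1
    obtain ⟨x, hx⟩ := exists_ne (1 : commutator G)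
    obtain ⟨n, y, hy⟩ := hcov x
    apply hx
    rw [hy, h1]
    simp
  · apply exists_not_comm hne
    have h2 : ∀ g : G, g ∈ zpowers a := by
      intro g
      obtain ⟨y, i, hy, rfl⟩ := h.decomp g
      refine mul_mem ?_ (zpow_mem_zpowers a i)
      have h3 : (⟨y, hy⟩ : commutator G) ∈ zpowers b := by rw [h1]; trivial
      obtain ⟨j, hj⟩ := mem_zpowers_iff.1 h3
      have h4 : (b : G) ^ j = y := congrArg Subtype.val hj
      rw [← h4]
      exact Subgroup.zpow_mem _ hb j
    intro x y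
    obtain ⟨i, rfl⟩ := mem_zpowers_iff.1 (h2 x)
    obtain ⟨j, rfl⟩ := mem_zpowers_iff.1 (h2 y)
    rw [← zpow_add, ← zpow_add, add_comm]

end Minimal

/-- A finite group covered by the conjugates of a cyclic subgroup is cyclic. -/
theorem Cov.infinite {a : G} (h : Cov a) (hnc : ¬ IsCyclic G) : Infinite G := by
  by_contra hcon
  rw [not_infinite_iff_finite] at hcon
  let f : (G ⧸ zpowers a) × zpowers a → G := fun p => p.1.out * (p.2 : G) * (p.1.out)⁻¹
  have hsurj : Function.Surjective f := by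
    intro g
    obtain ⟨n, x, rfl⟩ := h g
    refine ⟨(QuotientGroup.mk x, ⟨a ^ n, zpow_mem_zpowers a n⟩), ?_⟩
    have h1 : x⁻¹ * (QuotientGroup.mk x : G ⧸ zpowers a).out ∈ zpowers a := by
      rw [← QuotientGroup.eq]
      exact (Quotient.out_eq' (QuotientGroup.mk x : G ⧸ zpowers a)).symm
    obtain ⟨i, hi⟩ := mem_zpowers_iff.1 h1
    have h2 : (QuotientGroup.mk x : G ⧸ zpowers a).out = x * a ^ i := by rw [hi]; group
    show (QuotientGroup.mk x : G ⧸ zpowers a).out * a ^ n *
      ((QuotientGroup.mk x : G ⧸ zpowers a).out)⁻¹ = x * a ^ n * x⁻¹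
    rw [h2]
    group
  have hinj : Function.Injective f :=
    (Finite.injective_iff_surjective_of_equiv (groupEquivQuotientProdSubgroup
      (s := zpowers a)).symm).2 hsurj
  apply hnc
  refine ⟨a, fun g => ?_⟩
  have h1 : f (QuotientGroup.mk g, 1) = f (QuotientGroup.mk 1, 1) := by
    simp [f]
  have h2 := congrArg Prod.fst (hinj h1)
  have h3 : (QuotientGroup.mk (1 : G) : G ⧸ zpowers a) = QuotientGroup.mk g := h2.symm
  rw [QuotientGroup.eq] at h3
  simpa using mem_zpowers_iff.1 h3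

/-- **Reduction to simple groups for groups covered by the conjugates of a cyclic subgroup.** -/
theorem cov_main [hfp : Group.IsFinitelyPresented G] (hnc : ¬ IsCyclic G) {a : G} (h : Cov a) :
    ∃ (N : Subgroup G) (_ : N.Normal), (commutator (G ⧸ N)).FiniteIndex ∧
      IsSimpleGroup (commutator (G ⧸ N)) ∧ ¬ IsCyclic (commutator (G ⧸ N)) ∧
      Infinite (commutator (G ⧸ N)) ∧ Group.IsFinitelyPresented (commutator (G ⧸ N)) ∧
      ∃ b : commutator (G ⧸ N), Cov b := by
  have hne : commutator G ≠ ⊥ := by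
    intro hbot
    apply hnc
    refine ⟨a, fun g => ?_⟩
    obtain ⟨n, x, rfl⟩ := h g
    refine ⟨n, ?_⟩
    show a ^ n = x * a ^ n * x⁻¹
    have h1 : ⁅x, a ^ n⁆ ∈ commutator G := by
      rw [_root_.commutator_def]
      exact commutator_mem_commutator (mem_top _) (mem_top _)
    rw [hbot, mem_bot, commutatorElement_eq_one_iff_mul_comm] at h1
    rw [h1]
    group
  obtain ⟨N, hN, hlt, hmax⟩ := h.exists_max (commutator G) hne
  have hQ : Group.IsFinitelyPresented (G ⧸ N) := Group.IsFinitelyPresented.quotient N (h.fng N)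
  have hcQ : commutator (G ⧸ N) = (commutator G).map (QuotientGroup.mk' N) := by
    rw [_root_.commutator_def, _root_.commutator_def, map_commutator,
      map_top_of_surjective _ (QuotientGroup.mk'_surjective N)]
  have hne' : commutator (G ⧸ N) ≠ ⊥ := by
    rw [hcQ, Ne, Subgroup.map_eq_bot_iff, QuotientGroup.ker_mk']
    exact not_le_of_gt hlt
  have hmin : ∀ L : Subgroup (G ⧸ N), L.Normal → L ≤ commutator (G ⧸ N) →
      L = ⊥ ∨ L = commutator (G ⧸ N) := by
    intro L hL hle
    have h1 : N ≤ L.comap (QuotientGroup.mk' N) := by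
      intro x hx
      rw [mem_comap]
      have : QuotientGroup.mk' N x = 1 := (QuotientGroup.eq_one_iff x).2 hx
      rw [this]; exact one_mem _
    have h2 : L.comap (QuotientGroup.mk' N) ≤ commutator G := by
      calc L.comap (QuotientGroup.mk' N)
          ≤ ((commutator G).map (QuotientGroup.mk' N)).comap (QuotientGroup.mk' N) :=
            comap_mono (hcQ ▸ hle)
        _ = commutator G ⊔ (QuotientGroup.mk' N).ker := comap_map_eq _ _
        _ = commutator G := by rw [QuotientGroup.ker_mk', sup_eq_left.2 hlt.le]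
    rcases hmax _ (hL.comap _) h1 h2 with h3 | h3
    · left
      rw [← map_comap_eq_self_of_surjective (QuotientGroup.mk'_surjective N) L, h3,
        Subgroup.map_eq_bot_iff, QuotientGroup.ker_mk']
    · right
      rw [← map_comap_eq_self_of_surjective (QuotientGroup.mk'_surjective N) L, h3, hcQ]
  have hq := h.quot N
  have hfi := hq.finiteIndex hne'
  obtain ⟨b, -, hb⟩ := hq.sub
  have hnc' := hq.not_cyclic hne' hmin
  exact ⟨N, hN, hfi, hq.simple hne' hmin, hnc', hb.infinite hnc', fp_of_finiteIndex _, b, hb⟩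

end Pool.Agent.V11238.MG
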