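import Pool.Agent.V11238.MG.Conj

/-!
# Infinite groups whose proper subgroups are cyclic
-/

set_option autoImplicit false

namespace Pool.Agent.V11238.MG

open Subgroup

universe u

variable {G : Type u} [Group G]

/-- In an infinite cyclic group the only element of finite order is the identity. -/
theorem eq_one_of_pow {A : Type*} [Group A] [IsCyclic A] [Infinite A] {x : A} {n : ℕ} (hn : n ≠ 0)
    (h : x ^ n = 1) : x = 1 := by
  obtain ⟨c, hc⟩ := IsCyclic.exists_generator (α := A)
  have h0 : orderOf c = 0 := Infinite.orderOf_eq_zero_of_forall_mem_zpowers hc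
  obtain ⟨k, rfl⟩ := mem_zpowers_iff.1 (hc x)
  have h1 : c ^ (k * (n : ℤ)) = 1 := by rw [zpow_mul, zpow_natCast, h]
  have h2 : k * (n : ℤ) = 0 := by
    have := orderOf_dvd_iff_zpow_eq_one.2 h1
    rw [h0] at this
    simpa using this
  rcases mul_eq_zero.1 h2 with h3 | h3
  · rw [h3, zpow_zero]
  · exact absurd (by exact_mod_cast h3) hn

/-- In a finitely generated infinite abelian group the `n`-th powers form a proper subgroup. -/
theorem pow_range_ne_top {A : Type*} [CommGroup A] [Group.FG A] [Infinite A] {n : ℕ} (hn : 2 ≤ n) :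
    (powMonoidHom n : A →* A).range ≠ ⊤ := by
  intro htop
  have hfin : Module.Finite ℤ (Additive A) := by
    rw [Module.Finite.iff_addGroup_fg]
    exact GroupFG.iff_add_fg.1 inferInstance
  obtain ⟨r, hr1, hr2⟩ := Submodule.exists_sub_one_mem_and_smul_eq_zero_of_fg_of_le_smul
    (Ideal.span {(n : ℤ)}) (⊤ : Submodule ℤ (Additive A)) hfin.fg_top (by
      intro x _
      have hx : (Additive.toMul x) ∈ (powMonoidHom n : A →* A).range := by rw [htop]; trivial
      obtain ⟨y, hy⟩ := hx
      have : x = (n : ℤ) • Additive.ofMul y := by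
        apply Additive.toMul.injective
        rw [← hy]
        simp
      rw [this]
      exact Submodule.smul_mem_smul (Ideal.subset_span rfl) trivial)
  have hr0 : r ≠ 0 := by
    rintro rfl
    rw [Ideal.mem_span_singleton] at hr1
    have h1 : (n : ℤ) ∣ 1 := by simpa using (dvd_neg.2 hr1)
    have h2 := Int.le_of_dvd one_pos h1
    omega
  have htor : Monoid.IsTorsion A := by
    intro x
    rw [isOfFinOrder_iff_pow_eq_one]
    refine ⟨r.natAbs, Int.natAbs_pos.2 hr0, ?_⟩
    have h1 : r • Additive.ofMul x = 0 := hr2 _ trivial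
    have h2 : x ^ r = 1 := by
      have := congrArg Additive.toMul h1
      simpa using this
    rcases Int.natAbs_eq r with h3 | h3
    · rw [h3, zpow_natCast] at h2; exact h2
    · rw [h3, zpow_neg, zpow_natCast, inv_eq_one] at h2; exact h2
  exact not_finite_iff_infinite.2 ‹Infinite A› (CommGroup.finite_of_fg_torsion A htor)

section Three

variable [hfg : Group.FG G] [hinf : Infinite G] (h1 : ¬ IsCyclic G)
  (h2 : ∀ H : Subgroup G, H ≠ ⊤ → IsCyclic H)

include h1 h2 in
/-- Such a group is not abelian. -/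
theorem not_comm : ¬ ∀ x y : G, x * y = y * x := by
  intro hc
  letI : CommGroup G := { (inferInstance : Group G) with mul_comm := hc }
  have key : ∀ n : ℕ, 2 ≤ n → ∀ t : G, IsOfFinOrder t → t ^ n = 1 := by
    intro n hn t ht
    have h3 := h2 _ (pow_range_ne_top (A := G) hn)
    have h4 : Infinite (powMonoidHom n : G →* G).range := by
      by_contra hcon
      rw [not_infinite_iff_finite] at hcon
      have htor : Monoid.IsTorsion G := by
        intro x
        have h5 : IsOfFinOrder (⟨x ^ n, x, rfl⟩ : (powMonoidHom n : G →* G).range) :=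
          isOfFinOrder_of_finite _
        obtain ⟨m, hm, hm'⟩ := isOfFinOrder_iff_pow_eq_one.1 h5
        rw [isOfFinOrder_iff_pow_eq_one]
        refine ⟨n * m, by positivity, ?_⟩
        have := congrArg Subtype.val hm'
        rw [pow_mul]
        simpa using this
      have := CommGroup.finite_of_fg_torsion G htor
      exact not_finite G
    obtain ⟨m, hm, hm'⟩ := isOfFinOrder_iff_pow_eq_one.1 ht
    have h5 : (⟨t ^ n, t, rfl⟩ : (powMonoidHom n : G →* G).range) = 1 := by
      apply eq_one_of_pow hm.ne'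
      apply Subtype.ext
      show (t ^ n) ^ m = 1
      rw [← pow_mul, mul_comm, pow_mul, hm', one_pow]
    exact congrArg Subtype.val h5
  have h3 := h2 _ (pow_range_ne_top (A := G) le_rfl)
  apply h1
  refine isCyclic_of_injective ((powMonoidHom 2 : G →* G).rangeRestrict) ?_
  rw [← MonoidHom.ker_eq_bot_iff, eq_bot_iff]
  intro t ht
  rw [MonoidHom.mem_ker] at ht
  have h4 : t ^ 2 = 1 := congrArg Subtype.val ht
  have h5 : IsOfFinOrder t := isOfFinOrder_iff_pow_eq_one.2 ⟨2, by norm_num, h4⟩
  have h6 := key 3 (by norm_num) t h5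
  rw [mem_bot]
  calc t = t ^ 3 * (t ^ 2)⁻¹ := by group
    _ = 1 := by rw [h6, h4]; simp

include h2 in
/-- Two elements of a proper subgroup commute. -/
theorem comm_of_proper {P : Subgroup G} (hP : P ≠ ⊤) {x y : G} (hx : x ∈ P) (hy : y ∈ P) :
    x * y = y * x := by
  have h3 := h2 P hP
  obtain ⟨c, hc⟩ := IsCyclic.exists_generator (α := P)
  obtain ⟨a, ha⟩ := mem_zpowers_iff.1 (hc ⟨x, hx⟩)
  obtain ⟨b, hb⟩ := mem_zpowers_iff.1 (hc ⟨y, hy⟩)
  have h4 : (⟨x, hx⟩ : P) * ⟨y, hy⟩ = ⟨y, hy⟩ * ⟨x, hx⟩ := by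
    rw [← ha, ← hb, ← zpow_add, ← zpow_add, add_comm]
  exact congrArg Subtype.val h4

include h2 in
/-- Every proper normal subgroup is central. -/
theorem normal_central {N : Subgroup G} [hN : N.Normal] (hne : N ≠ ⊤) : N ≤ center G := by
  by_contra hcon
  obtain ⟨n, hn, hnc⟩ := Set.not_subset.1 hcon
  have hex : ∃ g, g * n ≠ n * g := by
    by_contra h
    push Not at h
    exact hnc (mem_center_iff.2 h)
  obtain ⟨g, hg⟩ := hex
  have hNc := h2 N hne
  obtain ⟨⟨c, hcN⟩, hc⟩ := IsCyclic.exists_generator (α := N)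
  have hgen : ∀ x ∈ N, ∃ k : ℤ, c ^ k = x := by
    intro x hx
    obtain ⟨k, hk⟩ := mem_zpowers_iff.1 (hc ⟨x, hx⟩)
    exact ⟨k, congrArg Subtype.val hk⟩
  have hgc : g * c ≠ c * g := by
    intro h
    obtain ⟨k, rfl⟩ := hgen n hn
    exact hg ((show Commute g c from h).zpow_right k).eq
  have htop : ∀ P : Subgroup G, g ∈ P → c ∈ P → P = ⊤ := by
    intro P h3 h4
    by_contra h5
    exact hgc (comm_of_proper h2 h5 h3 h4)
  by_cases hm : ∃ m : ℤ, m ≠ 0 ∧ g ^ m ∈ N
  · obtain ⟨m, hm0, hm⟩ := hm
    -- `N` is infinite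
    have hNinf : Infinite N := by
      by_contra hfin
      rw [not_infinite_iff_finite] at hfin
      have h3 : N ⊔ zpowers g = ⊤ :=
        htop _ (mem_sup_right (mem_zpowers g)) (mem_sup_left hcN)
      have h4 : IsOfFinOrder g := by
        have h5 : IsOfFinOrder (⟨g ^ m, hm⟩ : N) := isOfFinOrder_of_finite _
        obtain ⟨k, hk, hk'⟩ := isOfFinOrder_iff_pow_eq_one.1 h5
        have h6 : (g ^ m) ^ k = 1 := congrArg Subtype.val hk'
        rw [isOfFinOrder_iff_zpow_eq_one]
        refine ⟨m * k, mul_ne_zero hm0 (by positivity), ?_⟩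
        rw [zpow_mul, zpow_natCast, h6]
      have h7 : Finite (zpowers g) := by
        exact Set.finite_coe_iff.2 (finite_zpowers.2 h4)
      have : Finite G := by
        refine Finite.of_surjective (fun p : N × zpowers g => (p.1 : G) * (p.2 : G)) ?_
        intro x
        have hx : x ∈ N ⊔ zpowers g := by rw [h3]; trivial
        obtain ⟨y, hy, z, hz, rfl⟩ := mem_sup_of_normal_left.1 hx
        exact ⟨(⟨y, hy⟩, ⟨z, hz⟩), rfl⟩
      exact not_finite G
    have hinj : ∀ k : ℤ, c ^ k = 1 → k = 0 := by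
      intro k hk
      have h0 : orderOf (⟨c, hcN⟩ : N) = 0 := Infinite.orderOf_eq_zero_of_forall_mem_zpowers hc
      have h3 : (⟨c, hcN⟩ : N) ^ k = 1 := Subtype.ext hk
      have := orderOf_dvd_iff_zpow_eq_one.2 h3
      rw [h0] at this
      simpa using this
    obtain ⟨a, ha⟩ := hgen _ (hN.conj_mem c hcN g)
    obtain ⟨b, hb⟩ := hgen _ (hN.conj_mem c hcN g⁻¹)
    have hab : a * b = 1 := by
      have h3 : c ^ (a * b) = c := by
        rw [zpow_mul, ha, conj_zpow, hb]
        group
      have h4 : c ^ (a * b - 1) = 1 := by rw [zpow_sub, h3]; group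
      have := hinj _ h4
      omega
    have ha1 : a = -1 := by
      rcases Int.eq_one_or_neg_one_of_mul_eq_one hab with h3 | h3
      · exfalso
        rw [h3, zpow_one] at ha
        apply hgc
        calc g * c = g * c * g⁻¹ * g := by group
          _ = c * g := by rw [← ha]
      · exact h3
    have hconj : ∀ k : ℤ, g * c ^ k * g⁻¹ = c ^ (-k) := by
      intro k
      rw [← conj_zpow, ← ha, ha1, ← zpow_mul]
      congr 1; ring
    have hN2 : (zpowers (c ^ (2 : ℤ))).Normal := by
      refine ⟨fun x hx y => ?_⟩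
      obtain ⟨k, rfl⟩ := mem_zpowers_iff.1 hx
      obtain ⟨d, hd⟩ := hgen _ (hN.conj_mem c hcN y)
      rw [mem_zpowers_iff]
      refine ⟨d * k, ?_⟩
      rw [← conj_zpow, ← conj_zpow, ← hd, ← zpow_mul, ← zpow_mul, ← zpow_mul]
      congr 1; ring
    have hP : zpowers (c ^ (2 : ℤ)) ⊔ zpowers g = ⊤ := by
      by_contra h5
      have h6 := comm_of_proper h2 h5 (mem_sup_right (mem_zpowers g))
        (mem_sup_left (mem_zpowers (c ^ (2 : ℤ))))
      have h7 := hconj 2
      rw [h6] at h7
      have h8 : c ^ (4 : ℤ) = 1 := by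
        have h9 : c ^ (2 : ℤ) = c ^ (-2 : ℤ) := by
          rw [← h7]; group
        calc c ^ (4 : ℤ) = c ^ (2 : ℤ) * c ^ (2 : ℤ) := by rw [← zpow_add]; norm_num
          _ = c ^ (2 : ℤ) * c ^ (-2 : ℤ) := by rw [← h9]
          _ = 1 := by rw [← zpow_add]; norm_num
      have := hinj _ h8
      omega
    have hcP : c ∈ zpowers (c ^ (2 : ℤ)) ⊔ zpowers g := by rw [hP]; trivial
    obtain ⟨y, hy, z, hz, hyz⟩ := mem_sup_of_normal_left.1 hcP
    obtain ⟨s, rfl⟩ := mem_zpowers_iff.1 hy
    obtain ⟨k, rfl⟩ := mem_zpowers_iff.1 hz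
    have h3 : g ^ k = c ^ (1 - 2 * s) := by
      have : g ^ k = ((c ^ (2 : ℤ)) ^ s)⁻¹ * c := eq_inv_mul_of_mul_eq hyz
      rw [this, ← zpow_mul, ← zpow_neg, ← zpow_add_one]
      congr 1; ring
    have h4 := hconj (1 - 2 * s)
    rw [← h3] at h4
    have h5 : g * g ^ k * g⁻¹ = g ^ k := by group
    rw [h5, h3] at h4
    have h6 : c ^ ((1 - 2 * s) + (1 - 2 * s)) = 1 := by
      rw [zpow_add]
      nth_rw 1 [h4]
      rw [← zpow_add]; simp
    have := hinj _ h6
    omega
  · push Not at hm
    have key : ∀ k : ℤ, (∀ j : ℤ, k * j ≠ 1) → Commute (g ^ k) c := by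
      intro k hk
      apply comm_of_proper h2 (P := N ⊔ zpowers (g ^ k)) _
        (mem_sup_right (mem_zpowers _)) (mem_sup_left hcN)
      intro h3
      have hgP : g ∈ N ⊔ zpowers (g ^ k) := by rw [h3]; trivial
      obtain ⟨y, hy, z, hz, hyz⟩ := mem_sup_of_normal_left.1 hgP
      obtain ⟨j, rfl⟩ := mem_zpowers_iff.1 hz
      have h4 : g ^ (1 - k * j) = y := by
        have : y = g * ((g ^ k) ^ j)⁻¹ := by
          apply eq_mul_inv_of_mul_eq; exact hyz
        rw [this, ← zpow_mul, ← zpow_neg, ← zpow_one_add]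
        congr 1
      refine hm (1 - k * j) ?_ (h4 ▸ hy)
      have := hk j
      omega
    have h3 := key 2 (by intro j; omega)
    have h4 := key 3 (by intro j; omega)
    apply hgc
    have h5 : Commute (g ^ (3 : ℤ) * (g ^ (2 : ℤ))⁻¹) c := h4.mul_left h3.inv_left
    have h6 : g ^ (3 : ℤ) * (g ^ (2 : ℤ))⁻¹ = g := by group
    rw [h6] at h5
    exact h5.eq

include h1 h2 in
theorem center_ne_top : center G ≠ ⊤ := by
  intro h
  apply not_comm h1 h2
  intro x y
  have : y ∈ center G := by rw [h]; trivial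
  exact mem_center_iff.1 this x

include h1 h2 in
theorem simple_quot : IsSimpleGroup (G ⧸ center G) :=
  simple_of_maximal (center G) (center_ne_top h1 h2) fun L hL hle hne =>
    le_antisymm (normal_central h2 hne) hle

include h1 h2 in
theorem infinite_quot : Infinite (G ⧸ center G) := by
  by_contra hcon
  rw [not_infinite_iff_finite] at hcon
  have hfi : (center G).FiniteIndex := finiteIndex_of_finite_quotient
  have hZ := h2 _ (center_ne_top h1 h2)
  have hZinf : Infinite (center G) := by
    by_contra hfin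
    rw [not_infinite_iff_finite] at hfin
    have h4 : Nat.card (center G) * (center G).index = Nat.card G := card_mul_index _
    have h5 : Nat.card G ≠ 0 := by
      rw [← h4]; exact mul_ne_zero Nat.card_pos.ne' hfi.index_ne_zero
    have := Nat.finite_of_card_ne_zero h5
    exact not_finite G
  by_cases hk : (MonoidHom.transferCenterPow G).ker = ⊤
  · obtain ⟨z, hz⟩ := exists_ne (1 : center G)
    apply hz
    apply eq_one_of_pow hfi.index_ne_zero
    have h3 : (z : G) ∈ (MonoidHom.transferCenterPow G).ker := by rw [hk]; trivial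
    rw [MonoidHom.mem_ker] at h3
    have h4 := congrArg (Subtype.val) h3
    rw [MonoidHom.transferCenterPow_apply] at h4
    apply Subtype.ext
    simpa using h4
  · have h3 := normal_central h2 hk
    exact not_comm h1 h2
      (commutative_of_cyclic_center_quotient (MonoidHom.transferCenterPow G) h3)

include h1 h2 in
theorem not_cyclic_quot : ¬ IsCyclic (G ⧸ center G) := by
  intro h
  exact not_comm h1 h2 (commutative_of_cyclic_center_quotient (QuotientGroup.mk' (center G))
    (by rw [QuotientGroup.ker_mk']))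

include h2 in
theorem cyclic_proper_quot (H : Subgroup (G ⧸ center G)) (hH : H ≠ ⊤) : IsCyclic H := by
  have h3 : H.comap (QuotientGroup.mk' (center G)) ≠ ⊤ := by
    intro h
    apply hH
    rw [← map_comap_eq_self_of_surjective (QuotientGroup.mk'_surjective (center G)) H, h]
    exact map_top_of_surjective _ (QuotientGroup.mk'_surjective _)
  have h4 := h2 _ h3
  let f : H.comap (QuotientGroup.mk' (center G)) →* H :=
    { toFun := fun x => ⟨QuotientGroup.mk' (center G) x, x.2⟩
      map_one' := rfl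
      map_mul' := fun _ _ => rfl }
  refine isCyclic_of_surjective f ?_
  rintro ⟨x, hx⟩
  obtain ⟨y, rfl⟩ := QuotientGroup.mk'_surjective _ x
  exact ⟨⟨y, hx⟩, rfl⟩

omit hfg hinf in
/-- A cyclic normal subgroup is the normal closure of one element. -/
theorem fng_of_cyclic (N : Subgroup G) [hN : N.Normal] (hc : IsCyclic N) :
    N.IsFinitelyNormallyGenerated := by
  obtain ⟨⟨c, hcN⟩, hc⟩ := IsCyclic.exists_generator (α := N)
  refine ⟨{c}, Set.finite_singleton c, ?_⟩
  apply le_antisymm
  · apply normalClosure_le_normal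
    simpa using hcN
  · intro x hx
    obtain ⟨k, hk⟩ := mem_zpowers_iff.1 (hc ⟨x, hx⟩)
    have h3 : c ^ k = x := congrArg Subtype.val hk
    rw [← h3]
    exact Subgroup.zpow_mem _ (subset_normalClosure (Set.mem_singleton c)) k

include h1 h2 in
theorem fp_quot (hfp : Group.IsFinitelyPresented G) :
    Group.IsFinitelyPresented (G ⧸ center G) := by
  have hZ := h2 _ (center_ne_top h1 h2)
  exact Group.IsFinitelyPresented.quotient _ (fng_of_cyclic _ hZ)

end Three

section Four

variable [hfg : Group.FG G] [hinf : Infinite G] {p : ℕ} (hp : p.Prime)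
  (h4 : ∀ H : Subgroup G, H ≠ ⊥ → H ≠ ⊤ → IsCyclic H ∧ Nat.card H = p)

include hp h4 in
theorem four_not_cyclic : ¬ IsCyclic G := by
  intro hc
  obtain ⟨c, hc⟩ := IsCyclic.exists_generator (α := G)
  have h0 : orderOf c = 0 := Infinite.orderOf_eq_zero_of_forall_mem_zpowers hc
  have hinj : ∀ k : ℤ, c ^ k = 1 → k = 0 := by
    intro k hk
    have := orderOf_dvd_iff_zpow_eq_one.2 hk
    rw [h0] at this
    simpa using this
  have h1 : zpowers (c ^ (2 : ℤ)) ≠ ⊥ := by
    rw [Ne, zpowers_eq_bot]
    intro h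
    have := hinj _ h
    omega
  have h2 : zpowers (c ^ (2 : ℤ)) ≠ ⊤ := by
    intro h
    have h3 : c ∈ zpowers (c ^ (2 : ℤ)) := by rw [h]; trivial
    obtain ⟨k, hk⟩ := mem_zpowers_iff.1 h3
    have h5 : c ^ (2 * k - 1) = 1 := by
      rw [zpow_sub, zpow_mul, hk]; group
    have := hinj _ h5
    omega
  obtain ⟨-, h3⟩ := h4 _ h1 h2
  rw [Nat.card_zpowers] at h3
  have h5 : (c ^ (2 : ℤ)) ^ p = 1 := by rw [← h3, pow_orderOf_eq_one]
  rw [← zpow_natCast, ← zpow_mul] at h5
  have := hinj _ h5
  have := hp.pos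
  omega

include h4 in
theorem four_cyclic (H : Subgroup G) (hH : H ≠ ⊤) : IsCyclic H := by
  by_cases h : H = ⊥
  · subst h; infer_instance
  · exact (h4 H h hH).1

include hp h4 in
theorem four_simple : IsSimpleGroup G := by
  have h1 := four_not_cyclic hp h4
  have h2 := four_cyclic h4
  refine ⟨fun N hN => ?_⟩
  by_contra hcon
  push Not at hcon
  obtain ⟨hb, ht⟩ := hcon
  have hNc := normal_central h2 ht
  obtain ⟨g, hg⟩ : ∃ g, g ∉ center G := by
    by_contra h
    push Not at h
    exact center_ne_top h1 h2 (eq_top_iff.2 fun x _ => h x)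
  have hP : N ⊔ zpowers g ≠ ⊤ := by
    intro h
    apply hg
    rw [mem_center_iff]
    intro x
    have hx : x ∈ N ⊔ zpowers g := by rw [h]; trivial
    obtain ⟨y, hy, z, hz, rfl⟩ := mem_sup_of_normal_left.1 hx
    obtain ⟨k, rfl⟩ := mem_zpowers_iff.1 hz
    have h5 : g * y = y * g := mem_center_iff.1 (hNc hy) g
    calc y * g ^ k * g = y * g * g ^ k := by group
      _ = g * (y * g ^ k) := by rw [← h5, mul_assoc]
  have hPb : N ⊔ zpowers g ≠ ⊥ := fun h => hb (le_bot_iff.1 (h ▸ le_sup_left))
  have h5 := (h4 _ hb ht).2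
  have h6 := (h4 _ hPb hP).2
  have h7 : Finite (N ⊔ zpowers g : Subgroup G) := by
    apply Nat.finite_of_card_ne_zero
    rw [h6]
    exact hp.pos.ne'
  have h8 : N = N ⊔ zpowers g := eq_of_le_of_card_ge le_sup_left (by rw [h5, h6])
  apply hg
  apply hNc
  rw [h8]
  exact mem_sup_right (mem_zpowers g)

end Four

end Pool.Agent.V11238.MG
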