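import Pool.Agent.V11238.MG.Cyc
import Pool.Agent.H715R3.MedvA
import Pool.Agent.Helper446.RE

/-!
# Decision problems of finitely presented monster groups
-/

set_option autoImplicit false

namespace Pool.Agent.V11238.MG

open Subgroup Pool.Agent.H715R3.Medv Pool.Agent.Helper446

universe u

/-- Words in `n` letters and their formal inverses. -/
abbrev Wd (n : ℕ) := List (Fin n × Bool)

variable {G : Type u} [Group G] {n : ℕ} (φ : FreeGroup (Fin n) →* G)

/-- Triviality of words is recursively enumerable. -/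
theorem word_re (hker : φ.ker.IsFinitelyNormallyGenerated) :
    REPred fun w : Wd n => φ (FreeGroup.mk w) = 1 := by
  classical
  obtain ⟨S, hS, hSk⟩ := hker
  let l : List (Wd n) := hS.toFinset.toList.map FreeGroup.toWord
  let rel : ℕ → Wd n := fun k => l.getD k []
  have hrel : Primrec rel := (Primrec.list_getD []).comp (Primrec.const l) Primrec.id
  have h1 : normalClosure (Set.range fun k => FreeGroup.mk (rel k)) = φ.ker := by
    rw [← hSk]
    apply le_antisymm
    · apply normalClosure_le_normal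
      rintro _ ⟨k, rfl⟩
      show FreeGroup.mk (rel k) ∈ normalClosure S
      by_cases hk : k < l.length
      · have h2 : rel k = l[k] := List.getD_eq_getElem _ _ hk
        have h3 : rel k ∈ l := by rw [h2]; exact List.getElem_mem hk
        obtain ⟨s, hs, hs'⟩ := List.mem_map.1 h3
        rw [← hs', FreeGroup.mk_toWord]
        apply subset_normalClosure
        simpa using hs
      · have h2 : rel k = [] := List.getD_eq_default _ _ (not_lt.1 hk)
        rw [h2]
        exact one_mem _
    · apply normalClosure_le_normal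
      intro s hs
      apply subset_normalClosure
      have h3 : s.toWord ∈ l := List.mem_map.2 ⟨s, by simpa using hs, rfl⟩
      obtain ⟨k, hk, hk'⟩ := List.mem_iff_getElem.1 h3
      refine ⟨k, ?_⟩
      have h2 : rel k = l[k] := List.getD_eq_getElem _ _ hk
      show FreeGroup.mk (rel k) = s
      rw [h2, hk', FreeGroup.mk_toWord]
  refine (wordProblem_re rel hrel).of_eq fun w => ?_
  rw [h1, MonoidHom.mem_ker]

/-- Conjugacy of words is recursively enumerable. -/
theorem conj_re (hφ : Function.Surjective φ) (hker : φ.ker.IsFinitelyNormallyGenerated) :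
    REPred fun x : Wd n × Wd n => IsConj (φ (FreeGroup.mk x.1)) (φ (FreeGroup.mk x.2)) := by
  have h1 : REPred fun x : Wd n × Wd n => ∃ t : Wd n,
      φ (FreeGroup.mk ((t ++ (x.1 ++ winv t)) ++ winv x.2)) = 1 := by
    refine RE.ex (p := fun (x : Wd n × Wd n) (t : Wd n) =>
      φ (FreeGroup.mk ((t ++ (x.1 ++ winv t)) ++ winv x.2)) = 1) ?_
    refine RE.comp (word_re φ hker) (f := fun y : (Wd n × Wd n) × Wd n =>
      (y.2 ++ (y.1.1 ++ winv y.2)) ++ winv y.1.2) ?_
    apply Primrec.to_comp
    have ht : Primrec fun y : (Wd n × Wd n) × Wd n => y.2 := Primrec.snd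
    have hu : Primrec fun y : (Wd n × Wd n) × Wd n => y.1.1 := Primrec.fst.comp Primrec.fst
    have hv : Primrec fun y : (Wd n × Wd n) × Wd n => y.1.2 := Primrec.snd.comp Primrec.fst
    exact Primrec.list_append.comp (Primrec.list_append.comp ht
      (Primrec.list_append.comp hu (winv_primrec.comp ht))) (winv_primrec.comp hv)
  refine h1.of_eq fun x => ?_
  have key : ∀ t : Wd n, φ (FreeGroup.mk ((t ++ (x.1 ++ winv t)) ++ winv x.2)) =
      φ (FreeGroup.mk t) * φ (FreeGroup.mk x.1) * (φ (FreeGroup.mk t))⁻¹ *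
        (φ (FreeGroup.mk x.2))⁻¹ := by
    intro t
    rw [← FreeGroup.mul_mk, ← FreeGroup.mul_mk, ← FreeGroup.mul_mk, mk_winv, mk_winv]
    simp only [map_mul, map_inv, mul_assoc]
  rw [isConj_iff]
  constructor
  · rintro ⟨t, ht⟩
    refine ⟨φ (FreeGroup.mk t), ?_⟩
    rw [key] at ht
    exact mul_inv_eq_one.1 ht
  · rintro ⟨c, hc⟩
    obtain ⟨t, rfl⟩ := hφ c
    refine ⟨t.toWord, ?_⟩
    rw [key, FreeGroup.mk_toWord]
    exact mul_inv_eq_one.2 hc

/-- With finitely many conjugacy classes the conjugacy problem is decidable. -/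
theorem conj_computable [Finite (ConjClasses G)] (hφ : Function.Surjective φ)
    (hker : φ.ker.IsFinitelyNormallyGenerated) :
    ComputablePred fun x : Wd n × Wd n =>
      IsConj (φ (FreeGroup.mk x.1)) (φ (FreeGroup.mk x.2)) := by
  classical
  apply RE.cp_of_re (conj_re φ hφ hker)
  have := Fintype.ofFinite (ConjClasses G)
  have hrep : ∀ c : ConjClasses G, ∃ w : Wd n, ConjClasses.mk (φ (FreeGroup.mk w)) = c := by
    intro c
    obtain ⟨g, rfl⟩ := ConjClasses.exists_rep c
    obtain ⟨t, rfl⟩ := hφ g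
    exact ⟨t.toWord, by rw [FreeGroup.mk_toWord]⟩
  choose w hw using hrep
  let l : List (Wd n × Wd n) :=
    ((Finset.univ.filter fun p : ConjClasses G × ConjClasses G => p.1 ≠ p.2).toList.map
      fun p => (w p.1, w p.2))
  have h1 : REPred fun x : Wd n × Wd n => ∃ b ∈ l,
      IsConj (φ (FreeGroup.mk x.1)) (φ (FreeGroup.mk b.1)) ∧
        IsConj (φ (FreeGroup.mk x.2)) (φ (FreeGroup.mk b.2)) := by
    refine RE.ex_mem (p := fun (x : Wd n × Wd n) (b : Wd n × Wd n) =>
      IsConj (φ (FreeGroup.mk x.1)) (φ (FreeGroup.mk b.1)) ∧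
        IsConj (φ (FreeGroup.mk x.2)) (φ (FreeGroup.mk b.2))) ?_ (Computable.const l)
    refine RE.and ?_ ?_
    · refine RE.comp (conj_re φ hφ hker) (f := fun y : (Wd n × Wd n) × (Wd n × Wd n) =>
        (y.1.1, y.2.1)) ?_
      exact (Computable.fst.comp Computable.fst).pair (Computable.fst.comp Computable.snd)
    · refine RE.comp (conj_re φ hφ hker) (f := fun y : (Wd n × Wd n) × (Wd n × Wd n) =>
        (y.1.2, y.2.2)) ?_
      exact (Computable.snd.comp Computable.fst).pair (Computable.snd.comp Computable.snd)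
  refine h1.of_eq fun x => ?_
  simp only [← ConjClasses.mk_eq_mk_iff_isConj]
  constructor
  · rintro ⟨b, hb, h2, h3⟩ h4
    obtain ⟨p, hp, rfl⟩ := List.mem_map.1 hb
    rw [Finset.mem_toList, Finset.mem_filter] at hp
    apply hp.2
    rw [← hw p.1, ← hw p.2, ← h2, ← h3, h4]
  · intro h4
    refine ⟨(w (ConjClasses.mk (φ (FreeGroup.mk x.1))), w (ConjClasses.mk (φ (FreeGroup.mk x.2)))),
      ?_, (hw _).symm, (hw _).symm⟩
    apply List.mem_map.2
    refine ⟨(ConjClasses.mk (φ (FreeGroup.mk x.1)), ConjClasses.mk (φ (FreeGroup.mk x.2))), ?_, rfl⟩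
    rw [Finset.mem_toList, Finset.mem_filter]
    exact ⟨Finset.mem_univ _, h4⟩

/-- A decidable conjugacy problem gives a decidable word problem. -/
theorem word_of_conj (h : ComputablePred fun x : Wd n × Wd n =>
      IsConj (φ (FreeGroup.mk x.1)) (φ (FreeGroup.mk x.2))) :
    ComputablePred fun w : Wd n => φ (FreeGroup.mk w) = 1 := by
  have h1 := RE.cp_comp h (f := fun w : Wd n => (([] : Wd n), w))
    ((Computable.const []).pair Computable.id)
  refine h1.of_eq fun w => ?_
  show IsConj (φ (FreeGroup.mk ([] : Wd n))) (φ (FreeGroup.mk w)) ↔ _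
  have h2 : (FreeGroup.mk ([] : Wd n)) = 1 := rfl
  rw [h2, map_one]
  exact isConj_one_right

/-- Joint primitive recursiveness of the products of conjugates of a word and its inverse. -/
theorem dval_primrec : Primrec fun y : Wd n × List (Wd n × (ℕ × Bool)) =>
    dval (fun _ => y.1) y.2 := by
  unfold dval
  refine Primrec.list_flatMap Primrec.snd ?_
  have d : Primrec (fun p : (Wd n × List (Wd n × (ℕ × Bool))) × (Wd n × (ℕ × Bool)) => p.2) :=
    Primrec.snd
  have h1 := Primrec.fst.comp d
  have h2 : Primrec (fun p : (Wd n × List (Wd n × (ℕ × Bool))) × (Wd n × (ℕ × Bool)) => p.1.1) :=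
    Primrec.fst.comp Primrec.fst
  have h3 := Primrec.snd.comp (Primrec.snd.comp d)
  exact Primrec.list_append.comp h1 (Primrec.list_append.comp
      (Primrec.cond h3 h2 (winv_primrec.comp h2)) (winv_primrec.comp h1))

/-- The words that normally generate the group are recursively enumerable. -/
theorem kills_re (hφ : Function.Surjective φ) (hker : φ.ker.IsFinitelyNormallyGenerated) :
    REPred fun w : Wd n => normalClosure {φ (FreeGroup.mk w)} = ⊤ := by
  let gens : List (Wd n) := (List.finRange n).map fun i => [(i, true)]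
  have h1 : REPred fun w : Wd n => ∀ x ∈ gens, ∃ D : List (Wd n × (ℕ × Bool)),
      φ (FreeGroup.mk (dval (fun _ => w) D ++ winv x)) = 1 := by
    refine RE.all_mem (p := fun (w : Wd n) (x : Wd n) => ∃ D : List (Wd n × (ℕ × Bool)),
      φ (FreeGroup.mk (dval (fun _ => w) D ++ winv x)) = 1) ?_ (Computable.const gens)
    refine RE.ex (p := fun (y : Wd n × Wd n) (D : List (Wd n × (ℕ × Bool))) =>
      φ (FreeGroup.mk (dval (fun _ => y.1) D ++ winv y.2)) = 1) ?_
    refine RE.comp (word_re φ hker) (f := fun z : (Wd n × Wd n) × List (Wd n × (ℕ × Bool)) =>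
      dval (fun _ => z.1.1) z.2 ++ winv z.1.2) ?_
    apply Primrec.to_comp
    exact Primrec.list_append.comp
      (dval_primrec.comp ((Primrec.fst.comp Primrec.fst).pair Primrec.snd))
      (winv_primrec.comp (Primrec.snd.comp Primrec.fst))
  refine h1.of_eq fun w => ?_
  have key : ∀ x : Wd n, (∃ D : List (Wd n × (ℕ × Bool)),
      φ (FreeGroup.mk (dval (fun _ => w) D ++ winv x)) = 1) ↔
      φ (FreeGroup.mk x) ∈ normalClosure {φ (FreeGroup.mk w)} := by
    intro x
    rw [← Set.image_singleton, ← map_normalClosure _ _ hφ, mem_map]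
    have h2 : (Set.range fun _ : ℕ => FreeGroup.mk w) = {FreeGroup.mk w} := Set.range_const
    constructor
    · rintro ⟨D, hD⟩
      refine ⟨FreeGroup.mk (dval (fun _ => w) D), ?_, ?_⟩
      · have := (mem_normalClosure_iff (fun _ => w) _).2 ⟨D, rfl⟩
        rwa [h2] at this
      · rw [← FreeGroup.mul_mk, mk_winv, map_mul, map_inv] at hD
        exact mul_inv_eq_one.1 hD
    · rintro ⟨g, hg, hgx⟩
      rw [← h2] at hg
      obtain ⟨D, rfl⟩ := (mem_normalClosure_iff (fun _ => w) _).1 hg
      refine ⟨D, ?_⟩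
      rw [← FreeGroup.mul_mk, mk_winv, map_mul, map_inv]
      exact mul_inv_eq_one.2 hgx
  constructor
  · intro h
    have h3 : (normalClosure {φ (FreeGroup.mk w)}).comap φ = ⊤ := by
      rw [eq_top_iff, ← FreeGroup.closure_range_of, closure_le]
      rintro _ ⟨i, rfl⟩
      exact (key [(i, true)]).1 (h _ (List.mem_map.2 ⟨i, List.mem_finRange i, rfl⟩))
    rw [eq_top_iff]
    intro g _
    obtain ⟨t, rfl⟩ := hφ g
    have h4 : t ∈ (normalClosure {φ (FreeGroup.mk w)}).comap φ := by rw [h3]; trivial
    exact h4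
  · intro h x _
    rw [key, h]
    trivial

/-- The `k`-fold repetition of a word. -/
def pw (z : Wd n) (k : ℕ) : Wd n := (List.range k).flatMap fun _ => z

theorem mk_pw (z : Wd n) (k : ℕ) : FreeGroup.mk (pw z k) = FreeGroup.mk z ^ k := by
  induction k with
  | zero => rfl
  | succ k ih =>
    unfold pw at ih ⊢
    rw [List.range_succ, List.flatMap_append, ← FreeGroup.mul_mk, ih, pow_succ]
    simp

theorem pw_primrec (z : Wd n) : Primrec (pw z) :=
  Primrec.list_flatMap Primrec.list_range (Primrec.const z).to₂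

/-- A finitely presented group in which every proper normal subgroup is central, with a cyclic
center, has a decidable word problem. -/
theorem word_computable (hφ : Function.Surjective φ) (hker : φ.ker.IsFinitelyNormallyGenerated)
    (hN : ∀ N : Subgroup G, N.Normal → N ≠ ⊤ → N ≤ center G) (hZ : IsCyclic (center G))
    (hZ' : center G ≠ ⊤) : ComputablePred fun w : Wd n => φ (FreeGroup.mk w) = 1 := by
  apply RE.cp_of_re (word_re φ hker)
  obtain ⟨⟨z, hzZ⟩, hz⟩ := IsCyclic.exists_generator (α := center G)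
  obtain ⟨t, rfl⟩ := hφ z
  set m := orderOf (φ t) with hm
  have hpow : ∀ k : ℕ, φ (FreeGroup.mk (pw t.toWord k)) = φ t ^ k := by
    intro k
    rw [mk_pw, FreeGroup.mk_toWord, map_pow]
  have hmod : ∀ k : ℕ, k % m ≠ 0 ↔ φ t ^ k ≠ 1 := by
    intro k
    rw [Ne, ← Nat.dvd_iff_mod_eq_zero, orderOf_dvd_iff_pow_eq_one]
  have h1 : REPred fun w : Wd n => normalClosure {φ (FreeGroup.mk w)} = ⊤ ∨
      ∃ k : ℕ, k % m ≠ 0 ∧ (φ (FreeGroup.mk (w ++ pw t.toWord k)) = 1 ∨
        φ (FreeGroup.mk (w ++ winv (pw t.toWord k))) = 1) := by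
    refine RE.or (kills_re φ hφ hker) ?_
    refine RE.exN (p := fun (w : Wd n) (k : ℕ) => k % m ≠ 0 ∧
      (φ (FreeGroup.mk (w ++ pw t.toWord k)) = 1 ∨
        φ (FreeGroup.mk (w ++ winv (pw t.toWord k))) = 1)) ?_
    refine RE.and ?_ (RE.or ?_ ?_)
    · refine RE.ne (f := fun x : Wd n × ℕ => x.2 % m) (g := fun _ => 0) ?_ (Computable.const 0)
      exact (Primrec.nat_mod.comp Primrec.snd (Primrec.const m)).to_comp
    · refine RE.comp (word_re φ hker) (f := fun x : Wd n × ℕ => x.1 ++ pw t.toWord x.2) ?_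
      exact (Primrec.list_append.comp Primrec.fst ((pw_primrec _).comp Primrec.snd)).to_comp
    · refine RE.comp (word_re φ hker) (f := fun x : Wd n × ℕ => x.1 ++ winv (pw t.toWord x.2)) ?_
      exact (Primrec.list_append.comp Primrec.fst
        (winv_primrec.comp ((pw_primrec _).comp Primrec.snd))).to_comp
  refine h1.of_eq fun w => ?_
  constructor
  · rintro (h | ⟨k, hk, h | h⟩) h0
    · rw [h0] at h
      apply hZ'
      rw [eq_top_iff, ← h]
      apply normalClosure_le_normal
      rintro _ rfl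
      exact one_mem _
    · rw [← FreeGroup.mul_mk, map_mul, h0, one_mul, hpow] at h
      exact (hmod k).1 hk h
    · rw [← FreeGroup.mul_mk, map_mul, h0, one_mul, mk_winv, map_inv, hpow, inv_eq_one] at h
      exact (hmod k).1 hk h
  · intro h0
    by_cases h : normalClosure {φ (FreeGroup.mk w)} = ⊤
    · exact Or.inl h
    · right
      have h2 : φ (FreeGroup.mk w) ∈ center G :=
        hN _ normalClosure_normal h (subset_normalClosure rfl)
      obtain ⟨j, hj⟩ := mem_zpowers_iff.1 (hz ⟨_, h2⟩)
      have hj' : φ t ^ j = φ (FreeGroup.mk w) := congrArg Subtype.val hj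
      obtain ⟨k, rfl | rfl⟩ := Int.eq_nat_or_neg j
      · rw [zpow_natCast] at hj'
        refine ⟨k, (hmod k).2 (by rw [hj']; exact h0), Or.inr ?_⟩
        rw [← FreeGroup.mul_mk, map_mul, mk_winv, map_inv, hpow, hj']
        exact mul_inv_cancel _
      · rw [zpow_neg, zpow_natCast] at hj'
        refine ⟨k, (hmod k).2 (fun h3 => h0 ?_), Or.inl ?_⟩
        · rw [← hj', h3, inv_one]
        · rw [← FreeGroup.mul_mk, map_mul, hpow, ← hj']
          exact inv_mul_cancel _

end Pool.Agent.V11238.MG
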