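import Pool.Agent.V11238.MG.Dec

/-!
# Relations between the types
-/

set_option autoImplicit false

namespace Pool.Agent.V11238.MG

open Subgroup

universe u

variable {G : Type u} [Group G]

/-- In a group of type (4) every element has order dividing `p`. -/
theorem four_pow [Group.FG G] [Infinite G] {p : ℕ} (hp : p.Prime)
    (h4 : ∀ H : Subgroup G, H ≠ ⊥ → H ≠ ⊤ → IsCyclic H ∧ Nat.card H = p) (g : G) : g ^ p = 1 := by
  by_cases hg : zpowers g = ⊥
  · rw [zpowers_eq_bot] at hg
    rw [hg, one_pow]
  · have ht : zpowers g ≠ ⊤ := by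
      intro h
      apply four_not_cyclic hp h4
      exact ⟨g, fun x => mem_zpowers_iff.1 (by rw [h]; trivial)⟩
    have h5 := (h4 _ hg ht).2
    rw [Nat.card_zpowers] at h5
    rw [← h5, pow_orderOf_eq_one]

/-- With finitely many conjugacy classes, either the exponent is finite or some element of infinite
order has two conjugate positive powers. -/
theorem six_dichotomy [Finite (ConjClasses G)] :
    (∃ m : ℕ, 1 ≤ m ∧ ∀ g : G, g ^ m = 1) ∨
    ∃ (g t : G) (i j : ℕ), 0 < i ∧ i < j ∧ ¬ IsOfFinOrder g ∧ t * g ^ i * t⁻¹ = g ^ j := by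
  classical
  by_cases htor : ∀ g : G, IsOfFinOrder g
  · left
    have := Fintype.ofFinite (ConjClasses G)
    refine ⟨∏ c : ConjClasses G, orderOf (Quotient.out c : G), ?_, ?_⟩
    · exact Nat.one_le_iff_ne_zero.2
        (Finset.prod_ne_zero_iff.2 fun c _ => (htor _).orderOf_pos.ne')
    · intro g
      have h1 : IsConj g (Quotient.out (ConjClasses.mk g)) := by
        rw [← ConjClasses.mk_eq_mk_iff_isConj]
        exact (Quotient.out_eq _).symm
      have h2 : (Quotient.out (ConjClasses.mk g) : G) ^
          (∏ c : ConjClasses G, orderOf (Quotient.out c : G)) = 1 := by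
        rw [← orderOf_dvd_iff_pow_eq_one]
        exact Finset.dvd_prod_of_mem (fun c : ConjClasses G => orderOf (Quotient.out c : G))
          (Finset.mem_univ _)
      obtain ⟨c, hc⟩ := isConj_iff.1 h1
      rw [← hc, conj_pow] at h2
      have h3 := congrArg (fun x => c⁻¹ * x * c) h2
      simpa [mul_assoc] using h3
  · right
    push Not at htor
    obtain ⟨g, hg⟩ := htor
    obtain ⟨a, b, hab, h⟩ := Finite.exists_ne_map_eq_of_infinite
      (fun k : ℕ => ConjClasses.mk (g ^ (k + 1)))
    rcases lt_or_gt_of_ne hab with h1 | h1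
    · obtain ⟨t, ht⟩ := isConj_iff.1 (ConjClasses.mk_eq_mk_iff_isConj.1 h)
      exact ⟨g, t, a + 1, b + 1, by omega, by omega, hg, ht⟩
    · obtain ⟨t, ht⟩ := isConj_iff.1 (ConjClasses.mk_eq_mk_iff_isConj.1 h.symm)
      exact ⟨g, t, b + 1, a + 1, by omega, by omega, hg, ht⟩

end Pool.Agent.V11238.MG
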