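import Mathlib

/-!
# Subgroups of finite index of finitely presented groups are finitely presented
-/

set_option autoImplicit false

namespace Pool.Agent.V11238.MG

open Subgroup

universe u v

/-- A retract of a finitely generated free group is finitely presented. -/
theorem fp_of_retract {H : Type v} [Group H] {m : ℕ} (π : FreeGroup (Fin m) →* H)
    (s : H →* FreeGroup (Fin m)) (hs : ∀ h, π (s h) = h) : Group.IsFinitelyPresented H := by
  classical
  set S : Set (FreeGroup (Fin m)) :=
    Set.range fun i : Fin m => (FreeGroup.of i)⁻¹ * s (π (FreeGroup.of i)) with hS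
  refine ⟨m, π, fun h => ⟨s h, hs h⟩, S, Set.finite_range _, ?_⟩
  apply le_antisymm
  · apply normalClosure_le_normal
    rintro _ ⟨i, rfl⟩
    simp [MonoidHom.mem_ker, hs]
  · intro w hw
    rw [MonoidHom.mem_ker] at hw
    have key : ∀ w, (QuotientGroup.mk' (normalClosure S)) w =
        (QuotientGroup.mk' (normalClosure S)) (s (π w)) := by
      intro w
      have : (QuotientGroup.mk' (normalClosure S)) =
          (QuotientGroup.mk' (normalClosure S)).comp (s.comp π) := by
        ext i
        simp only [MonoidHom.comp_apply, QuotientGroup.mk'_apply]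
        rw [QuotientGroup.eq]
        exact subset_normalClosure ⟨i, rfl⟩
      exact DFunLike.congr_fun this w
    have h1 := key w
    rw [hw, map_one, map_one] at h1
    exact (QuotientGroup.eq_one_iff w).1 h1

/-- A finitely generated free group is finitely presented. -/
theorem fp_of_free_fg {H : Type v} [Group H] [IsFreeGroup H] [hfg : Group.FG H] :
    Group.IsFinitelyPresented H := by
  obtain ⟨n, π, hπ⟩ : ∃ (n : ℕ) (π : FreeGroup (Fin n) →* H), Function.Surjective π := by
    obtain ⟨α, hα, f, hf⟩ := (Group.fg_iff_exists_freeGroup_hom_surjective_finite.1 hfg)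
    obtain ⟨n, ⟨e⟩⟩ := Finite.exists_equiv_fin α
    exact ⟨n, f.comp (FreeGroup.map e.symm),
      hf.comp (FreeGroup.map_surjective e.symm.surjective)⟩
  choose g hg using hπ
  let s : H →* FreeGroup (Fin n) := IsFreeGroup.lift fun i => g (IsFreeGroup.of i)
  refine fp_of_retract π s fun h => ?_
  have : π.comp s = MonoidHom.id H := by
    apply IsFreeGroup.ext_hom
    intro a
    simp [s, hg]
  exact DFunLike.congr_fun this h

/-- A subgroup of finite index of a finitely presented group is finitely presented. -/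
theorem fp_of_finiteIndex {G : Type u} [Group G] [hG : Group.IsFinitelyPresented G]
    (H : Subgroup G) [hH : H.FiniteIndex] : Group.IsFinitelyPresented H := by
  classical
  obtain ⟨n, φ, hφ, S, hSf, hS⟩ := hG
  let H' : Subgroup (FreeGroup (Fin n)) := H.comap φ
  have hfi : H'.FiniteIndex := by
    refine ⟨?_⟩
    rw [H.index_comap_of_surjective hφ]
    exact hH.index_ne_zero
  have hfg : Group.FG H' := inferInstance
  have hfp : Group.IsFinitelyPresented H' := fp_of_free_fg
  let ψ : H' →* H := (φ.comp H'.subtype).codRestrict H fun x => x.2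
  have hψ : Function.Surjective ψ := by
    rintro ⟨h, hh⟩
    obtain ⟨w, rfl⟩ := hφ h
    exact ⟨⟨w, hh⟩, rfl⟩
  refine Group.IsFinitelyPresented.of_surjective ψ hψ ?_
  have hfin : Finite (FreeGroup (Fin n) ⧸ H') := inferInstance
  -- the finite set of conjugates of the relators by a transversal
  have hSK : ∀ s ∈ S, ∀ t : FreeGroup (Fin n), t * s * t⁻¹ ∈ H' := by
    intro s hs t
    have h1 : φ s = 1 := by
      rw [← MonoidHom.mem_ker, ← hS]; exact subset_normalClosure hs
    show φ (t * s * t⁻¹) ∈ H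
    rw [map_mul, map_mul, h1, mul_one, ← map_mul, mul_inv_cancel, map_one]
    exact H.one_mem
  let T : Set H' := {x | ∃ s ∈ S, ∃ q : FreeGroup (Fin n) ⧸ H', (x : FreeGroup (Fin n)) =
    (q.out)⁻¹ * s * (q.out)⁻¹⁻¹}
  have hTf : T.Finite := by
    have h1 : (Set.image2 (fun (s : FreeGroup (Fin n)) (q : FreeGroup (Fin n) ⧸ H') =>
        (q.out)⁻¹ * s * (q.out)⁻¹⁻¹) S Set.univ).Finite :=
      hSf.image2 _ Set.finite_univ
    refine Set.Finite.of_finite_image (f := fun x : H' => (x : FreeGroup (Fin n)))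
      (h1.subset ?_) Subtype.val_injective.injOn
    rintro _ ⟨x, ⟨s, hs, q, hx⟩, rfl⟩
    exact ⟨s, hs, q, Set.mem_univ _, hx.symm⟩
  refine ⟨T, hTf, ?_⟩
  apply le_antisymm
  · apply normalClosure_le_normal
    rintro x ⟨s, hs, q, hx⟩
    rw [SetLike.mem_coe, MonoidHom.mem_ker]
    apply Subtype.ext
    show φ (x : FreeGroup (Fin n)) = 1
    have h1 : φ s = 1 := by
      rw [← MonoidHom.mem_ker, ← hS]; exact subset_normalClosure hs
    rw [hx, map_mul, map_mul, h1, mul_one, ← map_mul, mul_inv_cancel, map_one]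
  · have key : φ.ker ≤ (normalClosure T).map H'.subtype := by
      rw [← hS, normalClosure, closure_le]
      intro y hy
      obtain ⟨s, hs, hsy⟩ := Group.mem_conjugatesOfSet_iff.1 hy
      obtain ⟨w, rfl⟩ := isConj_iff.1 hsy
      -- `w = h⁻¹ * q.out⁻¹`
      let q : FreeGroup (Fin n) ⧸ H' := (w⁻¹ : FreeGroup (Fin n))
      have hq : (q.out)⁻¹ * w⁻¹ ∈ H' := by
        rw [← QuotientGroup.eq]; exact QuotientGroup.out_eq' q
      have hk : w * q.out ∈ H' := by
        have := H'.inv_mem hq
        simpa using this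
      have hx : (⟨(q.out)⁻¹ * s * (q.out)⁻¹⁻¹, hSK s hs _⟩ : H') ∈ T := ⟨s, hs, q, rfl⟩
      refine ⟨⟨w * q.out, hk⟩ * ⟨(q.out)⁻¹ * s * (q.out)⁻¹⁻¹, hSK s hs _⟩ * ⟨w * q.out, hk⟩⁻¹,
        normalClosure_normal.conj_mem _ (subset_normalClosure hx) _, ?_⟩
      simp only [map_mul, map_inv, Subgroup.coe_subtype]
      group
    rintro ⟨x, hx'⟩ hx
    have h1 : x ∈ φ.ker := by
      rw [MonoidHom.mem_ker]
      rw [MonoidHom.mem_ker] at hx
      exact congrArg Subtype.val hx
    obtain ⟨y, hy, hyx⟩ := key h1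
    have : y = ⟨x, hx'⟩ := Subtype.ext hyx
    rwa [this] at hy

end Pool.Agent.V11238.MG
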