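import Pool.Agent.V11238.MG.Extra

/-!
# Finitely many conjugacy classes and growth
-/

set_option autoImplicit false

namespace Pool.Agent.V11238.MG

open Subgroup

universe u

variable {G : Type u} [Group G]

/-- The ball of radius `r` of the word length with respect to `S`. -/
def ball (S : Set G) (r : ℕ) : Set G :=
  {g | ∃ l : List G, l.length ≤ r ∧ (∀ x ∈ l, x ∈ S ∨ x⁻¹ ∈ S) ∧ l.prod = g}

/-- The growth function. -/
noncomputable def growth (S : Set G) (r : ℕ) : ℕ := (ball S r).ncard

theorem ball_mono (S : Set G) {a b : ℕ} (h : a ≤ b) : ball S a ⊆ ball S b := by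
  rintro g ⟨l, h1, h2, h3⟩
  exact ⟨l, h1.trans h, h2, h3⟩

theorem one_mem_ball (S : Set G) (r : ℕ) : (1 : G) ∈ ball S r :=
  ⟨[], by simp, by simp, rfl⟩

theorem ball_mul {S : Set G} {a b : ℕ} {g h : G} (hg : g ∈ ball S a) (hh : h ∈ ball S b) :
    g * h ∈ ball S (a + b) := by
  obtain ⟨l, h1, h2, rfl⟩ := hg
  obtain ⟨m, h3, h4, rfl⟩ := hh
  refine ⟨l ++ m, by rw [List.length_append]; omega, ?_, List.prod_append⟩
  intro x hx
  rcases List.mem_append.1 hx with h | h
  · exact h2 x h
  · exact h4 x h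

theorem ball_inv {S : Set G} {a : ℕ} {g : G} (hg : g ∈ ball S a) : g⁻¹ ∈ ball S a := by
  obtain ⟨l, h1, h2, rfl⟩ := hg
  refine ⟨(l.map fun x => x⁻¹).reverse, by simpa using h1, ?_, ?_⟩
  · intro x hx
    rw [List.mem_reverse, List.mem_map] at hx
    obtain ⟨y, hy, rfl⟩ := hx
    rcases h2 y hy with h | h
    · right; rwa [inv_inv]
    · left; exact h
  · rw [List.prod_inv_reverse]

theorem ball_pow {S : Set G} {a : ℕ} {g : G} (hg : g ∈ ball S a) (k : ℕ) :
    g ^ k ∈ ball S (k * a) := by
  induction k with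
  | zero => rw [pow_zero]; exact one_mem_ball S _
  | succ k ih =>
    rw [pow_succ, Nat.succ_mul]
    exact ball_mul ih hg

theorem exists_ball {S : Set G} (hS : closure S = ⊤) (g : G) : ∃ r, g ∈ ball S r := by
  have hg : g ∈ closure S := by rw [hS]; trivial
  induction hg using closure_induction with
  | mem x hx => exact ⟨1, [x], by simp, by simp [hx], by simp⟩
  | one => exact ⟨0, one_mem_ball S 0⟩
  | mul x y _ _ hx hy =>
    obtain ⟨a, ha⟩ := hx
    obtain ⟨b, hb⟩ := hy
    exact ⟨a + b, ball_mul ha hb⟩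
  | inv x _ hx =>
    obtain ⟨a, ha⟩ := hx
    exact ⟨a, ball_inv ha⟩

theorem ball_finite {S : Set G} (hS : S.Finite) (r : ℕ) : (ball S r).Finite := by
  have h1 : ({x : G | x ∈ S ∨ x⁻¹ ∈ S}).Finite := by
    have : {x : G | x ∈ S ∨ x⁻¹ ∈ S} = S ∪ S⁻¹ := rfl
    rw [this]
    exact hS.union hS.inv
  have h2 : Finite {x : G // x ∈ S ∨ x⁻¹ ∈ S} := h1.to_subtype
  have h3 := List.finite_length_le {x : G // x ∈ S ∨ x⁻¹ ∈ S} r
  refine (h3.image fun l => (l.map Subtype.val).prod).subset ?_
  rintro g ⟨l, hl1, hl2, rfl⟩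
  refine ⟨l.pmap (fun x hx => ⟨x, hx⟩) hl2, by simpa using hl1, ?_⟩
  show ((l.pmap (fun x hx => (⟨x, hx⟩ : {x : G // x ∈ S ∨ x⁻¹ ∈ S})) hl2).map
    Subtype.val).prod = l.prod
  rw [List.map_pmap]
  simp

/-- An element with two conjugate positive powers is exponentially distorted. -/
theorem distorted {S : Set G} {g t : G} {i j l m : ℕ} (hi : 0 < i) (hij : i < j)
    (h : t * g ^ i * t⁻¹ = g ^ j) (hg : g ∈ ball S m) (ht : t ∈ ball S l) :
    ∀ k N : ℕ, (N : ℝ) < ((j : ℝ) / i) ^ k → g ^ N ∈ ball S (k * (2 * l + j * m)) := by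
  have hi' : (0 : ℝ) < i := by exact_mod_cast hi
  have hj : 0 < j := hi.trans hij
  have hj' : (0 : ℝ) < j := by exact_mod_cast hj
  intro k
  induction k with
  | zero =>
    intro N hN
    rw [pow_zero] at hN
    have : N = 0 := by
      have : N < 1 := by exact_mod_cast hN
      omega
    rw [this, pow_zero]
    exact one_mem_ball S _
  | succ k ih =>
    intro N hN
    have h1 : ((i * (N / j) : ℕ) : ℝ) < ((j : ℝ) / i) ^ k := by
      have h2 : ((N / j : ℕ) : ℝ) ≤ (N : ℝ) / j := Nat.cast_div_le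
      push_cast
      calc (i : ℝ) * ((N / j : ℕ) : ℝ) ≤ i * ((N : ℝ) / j) :=
            mul_le_mul_of_nonneg_left h2 hi'.le
        _ = (N : ℝ) * ((i : ℝ) / j) := by ring
        _ < ((j : ℝ) / i) ^ (k + 1) * ((i : ℝ) / j) :=
            mul_lt_mul_of_pos_right hN (by positivity)
        _ = ((j : ℝ) / i) ^ k := by
            rw [pow_succ]
            field_simp
    have h3 := ih _ h1
    have h4 : g ^ N = t * g ^ (i * (N / j)) * t⁻¹ * g ^ (N % j) := by
      rw [pow_mul, ← conj_pow, h, ← pow_mul, ← pow_add, Nat.div_add_mod]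
    rw [h4]
    refine ball_mono S ?_ (ball_mul (ball_mul (ball_mul ht h3) (ball_inv ht)) (ball_pow hg (N % j)))
    have h5 : N % j * m ≤ j * m := Nat.mul_le_mul_right _ (Nat.mod_lt _ hj).le
    have h6 : (k + 1) * (2 * l + j * m) = k * (2 * l + j * m) + (2 * l + j * m) := by ring
    rw [h6]
    omega

/-- Two conjugate positive powers of an element of infinite order force exponential growth. -/
theorem exp_growth {S : Set G} (hS : S.Finite) (hgen : closure S = ⊤) {g t : G} {i j : ℕ}
    (hi : 0 < i) (hij : i < j) (hg : ¬ IsOfFinOrder g) (h : t * g ^ i * t⁻¹ = g ^ j) :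
    ∃ c : ℝ, 0 < c ∧ ∀ r : ℕ, Real.exp (c * r) ≤ growth S r := by
  obtain ⟨m, hm⟩ := exists_ball hgen g
  obtain ⟨l, hl⟩ := exists_ball hgen t
  set B := 2 * l + j * m + 1 with hB
  set a : ℝ := (j : ℝ) / i with ha
  have hi' : (0 : ℝ) < i := by exact_mod_cast hi
  have ha1 : 1 < a := by
    rw [ha, one_lt_div hi']
    exact_mod_cast hij
  have hBpos : (0 : ℝ) < B := by positivity
  have key : ∀ k : ℕ, a ^ k ≤ growth S (k * B) := by
    intro k
    have h1 : (Finset.range ⌈a ^ k⌉₊ : Set ℕ).ncard ≤ (ball S (k * B)).ncard := by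
      refine Set.ncard_le_ncard_of_injOn (fun N => g ^ N) ?_ ?_ (ball_finite hS _)
      · intro N hN
        have h2 : N < ⌈a ^ k⌉₊ := by simpa using hN
        have h3 : (N : ℝ) < a ^ k := Nat.lt_ceil.1 h2
        exact ball_mono S (Nat.mul_le_mul_left _ (by omega)) (distorted hi hij h hm hl k N h3)
      · intro x _ y _ hxy
        exact (injective_pow_iff_not_isOfFinOrder.2 hg) hxy
    rw [Set.ncard_coe_finset, Finset.card_range] at h1
    calc a ^ k ≤ ⌈a ^ k⌉₊ := Nat.le_ceil _
      _ ≤ growth S (k * B) := by exact_mod_cast h1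
  have hmono : ∀ {x y : ℕ}, x ≤ y → growth S x ≤ growth S y := fun hxy =>
    Set.ncard_le_ncard (ball_mono S hxy) (ball_finite hS _)
  have hone : 1 ≤ growth S 0 := by
    have : 0 < (ball S 0).ncard := (Set.ncard_pos (ball_finite hS 0)).2 ⟨1, one_mem_ball S 0⟩
    exact this
  have htwo : 2 ≤ growth S 1 := by
    obtain ⟨s, hs, hs1⟩ : ∃ s ∈ S, s ≠ 1 := by
      by_contra hcon
      push Not at hcon
      have h1 : closure S ≤ ⊥ := by
        rw [closure_le]
        intro s hs
        exact hcon s hs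
      rw [hgen] at h1
      have h2 : g ∈ (⊥ : Subgroup G) := h1 (mem_top g)
      rw [mem_bot] at h2
      apply hg
      rw [h2]
      exact IsOfFinOrder.one
    have h1 : ({1, s} : Set G).ncard ≤ (ball S 1).ncard := by
      refine Set.ncard_le_ncard ?_ (ball_finite hS 1)
      rintro x (rfl | rfl)
      · exact one_mem_ball S 1
      · exact ⟨[x], by simp, by simp [hs], by simp⟩
    rw [Set.ncard_pair hs1.symm] at h1
    exact h1
  have hla : 0 < Real.log a := Real.log_pos ha1
  have hl2 : 0 < Real.log 2 := Real.log_pos (by norm_num)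
  refine ⟨min (Real.log a / (2 * B)) (Real.log 2 / B), by positivity, ?_⟩
  intro r
  set c := min (Real.log a / (2 * B)) (Real.log 2 / B) with hc
  have hc0 : 0 < c := by positivity
  rcases Nat.eq_zero_or_pos r with hr | hr
  · rw [hr]
    have : (1 : ℝ) ≤ growth S 0 := by exact_mod_cast hone
    simpa using this
  · rcases Nat.lt_or_ge r B with hrB | hrB
    · have h1 : c * r ≤ Real.log 2 := by
        calc c * r ≤ (Real.log 2 / B) * B := by
              apply mul_le_mul (min_le_right _ _) (by exact_mod_cast hrB.le) (by positivity)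
                (by positivity)
          _ = Real.log 2 := by field_simp
      calc Real.exp (c * r) ≤ Real.exp (Real.log 2) := Real.exp_le_exp.2 h1
        _ = 2 := Real.exp_log (by norm_num)
        _ ≤ growth S r := by exact_mod_cast htwo.trans (hmono hr)
    · have hk1 : 1 ≤ r / B := Nat.div_pos hrB (by omega)
      have hk2 : r < (r / B + 1) * B := by
        have := Nat.div_add_mod r B
        have h3 := Nat.mod_lt r (show B > 0 by omega)
        nlinarith
      have h1 : c * r ≤ (r / B : ℕ) * Real.log a := by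
        have h2 : (r : ℝ) ≤ ((r / B : ℕ) + 1) * B := by exact_mod_cast hk2.le
        have h3 : (1 : ℝ) ≤ ((r / B : ℕ) : ℝ) := by exact_mod_cast hk1
        calc c * r ≤ (Real.log a / (2 * B)) * (((r / B : ℕ) + 1) * B) := by
              apply mul_le_mul (min_le_left _ _) h2 (by positivity) (by positivity)
          _ = Real.log a * ((((r / B : ℕ) : ℝ) + 1) / 2) := by field_simp
          _ ≤ Real.log a * ((r / B : ℕ) : ℝ) := by
              apply mul_le_mul_of_nonneg_left _ hla.le
              linarith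
          _ = _ := by ring
      calc Real.exp (c * r) ≤ Real.exp ((r / B : ℕ) * Real.log a) := Real.exp_le_exp.2 h1
        _ = a ^ (r / B) := by
            rw [← Real.log_pow, Real.exp_log (by positivity)]
        _ ≤ growth S (r / B * B) := key _
        _ ≤ growth S r := by exact_mod_cast hmono (Nat.div_mul_le_self r B)

/-- A group with finitely many conjugacy classes has finite exponent or exponential growth. -/
theorem six_growth [Finite (ConjClasses G)] :
    (∃ m : ℕ, 1 ≤ m ∧ ∀ g : G, g ^ m = 1) ∨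
    ∀ S : Set G, S.Finite → closure S = ⊤ →
      ∃ c : ℝ, 0 < c ∧ ∀ r : ℕ, Real.exp (c * r) ≤ growth S r := by
  rcases six_dichotomy (G := G) with h | ⟨g, t, i, j, hi, hij, hg, h⟩
  · exact Or.inl h
  · exact Or.inr fun S hS hgen => exp_growth hS hgen hi hij hg h

end Pool.Agent.V11238.MG
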