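import Pool.Agent.V11238.MG.AbCov

/-!
# Groups covered by the conjugates of a finite simple subgroup
-/

set_option autoImplicit false

namespace Pool.Agent.V11238.MG

open Subgroup

universe u

variable {G : Type u} [Group G]

/-- A tower of countable sets starting from `C`. -/
def towerC (x : G → G) (C : Set G) : ℕ → Set G
  | 0 => C
  | n + 1 => (towerC x C n ∪ Set.image2 (fun a b => a * b) (towerC x C n) (towerC x C n)) ∪
      ((fun a => a⁻¹) '' towerC x C n ∪ x '' towerC x C n)

theorem towerC_countable (x : G → G) {C : Set G} (hC : C.Countable) (n : ℕ) :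
    (towerC x C n).Countable := by
  induction n with
  | zero => exact hC
  | succ n ih => exact (ih.union (ih.image2 ih _)).union ((ih.image _).union (ih.image _))

theorem towerC_mono (x : G → G) (C : Set G) : Monotone (towerC x C) :=
  monotone_nat_of_le_succ fun _ => Set.subset_union_left.trans Set.subset_union_left

/-- Passing to a countable subgroup containing a given countable covering subgroup. -/
theorem cov_countable {A : Subgroup G} (hA : (A : Set G).Countable) (hc : CovAb A) (hne : A ≠ ⊤) :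
    ∃ L : Subgroup G, A ≤ L ∧ Countable L ∧ CovAb (A.subgroupOf L) ∧ A.subgroupOf L ≠ ⊤ := by
  obtain ⟨g0, hg0⟩ : ∃ g0, g0 ∉ A := by
    by_contra h
    push Not at h
    exact hne (eq_top_iff.2 fun g _ => h g)
  choose x hx using hc
  set C : Set G := insert g0 (A : Set G) with hC
  have hCc : C.Countable := hA.insert g0
  let H : Subgroup G :=
    { carrier := ⋃ n, towerC x C n
      one_mem' := Set.mem_iUnion.2 ⟨0, Or.inr A.one_mem⟩
      mul_mem' := by
        intro a b ha hb
        obtain ⟨m, hm⟩ := Set.mem_iUnion.1 ha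
        obtain ⟨n, hn⟩ := Set.mem_iUnion.1 hb
        exact Set.mem_iUnion.2 ⟨max m n + 1, Or.inl (Or.inr
          ⟨a, towerC_mono x C (le_max_left m n) hm, b, towerC_mono x C (le_max_right m n) hn,
            rfl⟩)⟩
      inv_mem' := by
        intro a ha
        obtain ⟨m, hm⟩ := Set.mem_iUnion.1 ha
        exact Set.mem_iUnion.2 ⟨m + 1, Or.inr (Or.inl ⟨a, hm, rfl⟩)⟩ }
  refine ⟨H, fun a ha => Set.mem_iUnion.2 ⟨0, Or.inr ha⟩, ?_, ?_, ?_⟩
  · have h2 : (H : Set G).Countable := Set.countable_iUnion (towerC_countable x hCc)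
    exact h2.to_subtype
  · rintro ⟨g, hg⟩
    obtain ⟨n, hn⟩ := Set.mem_iUnion.1 hg
    have h1 : x g ∈ H := Set.mem_iUnion.2 ⟨n + 1, Or.inr (Or.inr ⟨g, hn, rfl⟩)⟩
    exact ⟨⟨x g, h1⟩, hx g⟩
  · intro h
    apply hg0
    rw [subgroupOf_eq_top] at h
    exact h (Set.mem_iUnion.2 ⟨0, Or.inl rfl⟩)

/-- Jordan: a finite group is not the union of the conjugates of a proper subgroup. -/
theorem CovAb.infinite {A : Subgroup G} (h : CovAb A) (hne : A ≠ ⊤) : Infinite G := by
  by_contra hcon
  rw [not_infinite_iff_finite] at hcon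
  let f : (G ⧸ A) × A → G := fun p => p.1.out * (p.2 : G) * (p.1.out)⁻¹
  have hsurj : Function.Surjective f := by
    intro g
    obtain ⟨x, hx⟩ := h g
    -- `g = x⁻¹ (x g x⁻¹) x`
    have h1 : x * (QuotientGroup.mk x⁻¹ : G ⧸ A).out ∈ A := by
      have h2 : x⁻¹⁻¹ * (QuotientGroup.mk x⁻¹ : G ⧸ A).out ∈ A := by
        rw [← QuotientGroup.eq]
        exact (Quotient.out_eq' (QuotientGroup.mk x⁻¹ : G ⧸ A)).symm
      rwa [inv_inv] at h2
    set t := (QuotientGroup.mk x⁻¹ : G ⧸ A).out with ht
    refine ⟨(QuotientGroup.mk x⁻¹, ⟨(x * t)⁻¹ * (x * g * x⁻¹) * (x * t),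
      mul_mem (mul_mem (inv_mem h1) hx) h1⟩), ?_⟩
    show t * ((x * t)⁻¹ * (x * g * x⁻¹) * (x * t)) * t⁻¹ = g
    group
  have hinj : Function.Injective f :=
    (Finite.injective_iff_surjective_of_equiv (groupEquivQuotientProdSubgroup
      (s := A)).symm).2 hsurj
  apply hne
  rw [eq_top_iff]
  intro g _
  have h1 : f (QuotientGroup.mk g, 1) = f (QuotientGroup.mk 1, 1) := by
    simp [f]
  have h2 := congrArg Prod.fst (hinj h1)
  have h3 : (QuotientGroup.mk (1 : G) : G ⧸ A) = QuotientGroup.mk g := h2.symm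
  rw [QuotientGroup.eq] at h3
  simpa using h3

/-- A group covered by the conjugates of a simple subgroup is simple. -/
theorem CovAb.isSimple {A : Subgroup G} (h : CovAb A) (hs : IsSimpleGroup A) : IsSimpleGroup G := by
  have hnt : Nontrivial A := hs.toNontrivial
  have hntG : Nontrivial G := by
    obtain ⟨a, ha⟩ := exists_ne (1 : A)
    exact ⟨⟨(a : G), 1, fun h => ha (Subtype.ext h)⟩⟩
  refine ⟨fun N hN => ?_⟩
  have hn : (N.subgroupOf A).Normal := inferInstance
  rcases hs.eq_bot_or_eq_top_of_normal _ hn with h1 | h1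
  · left
    rw [eq_bot_iff]
    intro g hg
    obtain ⟨x, hx⟩ := h g
    have h2 : (⟨x * g * x⁻¹, hx⟩ : A) ∈ N.subgroupOf A := hN.conj_mem g hg x
    rw [h1, mem_bot] at h2
    have h3 : x * g * x⁻¹ = 1 := congrArg Subtype.val h2
    rw [mem_bot]
    rw [mul_inv_eq_one] at h3
    exact mul_left_cancel (h3.trans (mul_one x).symm)
  · right
    rw [eq_top_iff]
    intro g _
    rw [subgroupOf_eq_top] at h1
    obtain ⟨x, hx⟩ := h g
    have h2 := hN.conj_mem _ (h1 hx) x⁻¹
    simpa [mul_assoc] using h2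

theorem CovAb.exponent {A : Subgroup G} (h : CovAb A) : Monoid.exponent G = Monoid.exponent A := by
  apply Nat.dvd_antisymm
  · apply Monoid.exponent_dvd_of_forall_pow_eq_one
    intro g
    obtain ⟨x, hx⟩ := h g
    have h1 := congrArg (Subtype.val) (Monoid.pow_exponent_eq_one (⟨x * g * x⁻¹, hx⟩ : A))
    have h2 : (x * g * x⁻¹) ^ Monoid.exponent A = 1 := h1
    rw [conj_pow] at h2
    rw [mul_inv_eq_one] at h2
    exact mul_left_cancel (h2.trans (mul_one x).symm)
  · apply Monoid.exponent_dvd_of_forall_pow_eq_one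
    intro a
    exact Subtype.ext (Monoid.pow_exponent_eq_one (a : G))

theorem CovAb.classes {A : Subgroup G} (h : CovAb A) [Finite A] :
    Finite (ConjClasses G) ∧ Nat.card (ConjClasses G) ≤ Nat.card (ConjClasses A) := by
  have hs : Function.Surjective (ConjClasses.map A.subtype) := by
    intro c
    obtain ⟨g, rfl⟩ := ConjClasses.exists_rep c
    obtain ⟨x, hx⟩ := h g
    refine ⟨ConjClasses.mk ⟨x * g * x⁻¹, hx⟩, ?_⟩
    show ConjClasses.mk (x * g * x⁻¹) = ConjClasses.mk g
    rw [ConjClasses.mk_eq_mk_iff_isConj]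
    exact (isConj_iff.2 ⟨x, rfl⟩ : IsConj g (x * g * x⁻¹)).symm
  have hf : Finite (ConjClasses A) := inferInstance
  exact ⟨Finite.of_surjective _ hs, Nat.card_le_card_of_surjective _ hs⟩

end Pool.Agent.V11238.MG
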