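import Mathlib

/-!
# Groups whose subgroups are finite or of finite index
-/

set_option autoImplicit false

namespace Pool.Agent.V11238.MG

open Subgroup
open scoped Pointwise commutatorElement

universe u

/-- A finitely generated torsion group with a commutative subgroup of finite index is finite. -/
theorem finite_of_abelian_index {G : Type u} [Group G] [Group.FG G] (ht : ∀ g : G, IsOfFinOrder g)
    (A : Subgroup G) [hA : A.FiniteIndex] (hab : ∀ x y : A, x * y = y * x) : Finite G := by
  have h1 : Group.FG A := inferInstance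
  let i : CommGroup A := { (inferInstance : Group A) with mul_comm := hab }
  have h2 : @Group.FG A i.toGroup := h1
  have h3 : Finite A := by
    apply CommGroup.finite_of_fg_torsion
    intro a
    have h4 := ht (a : G)
    exact (Submonoid.isOfFinOrder_coe (H := A.toSubmonoid) (x := a)).1 h4
  have h4 : Nat.card A * A.index = Nat.card G := card_mul_index _
  have h5 : Nat.card G ≠ 0 := by
    rw [← h4]; exact mul_ne_zero Nat.card_pos.ne' hA.index_ne_zero
  exact Nat.finite_of_card_ne_zero h5

section

variable {G : Type u} [Group G]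

/-- The subgroup generated by all finite normal subgroups. -/
def fcore (G : Type u) [Group G] : Subgroup G := sSup {N : Subgroup G | N.Normal ∧ Finite N}

theorem sup_finite_normal {N M : Subgroup G} (hN : N.Normal) (hM : M.Normal) (h1 : Finite N)
    (h2 : Finite M) : (N ⊔ M).Normal ∧ Finite (N ⊔ M : Subgroup G) := by
  refine ⟨inferInstance, ?_⟩
  have h3 : ((N : Set G) * (M : Set G)).Finite := (Set.toFinite _).mul (Set.toFinite _)
  have h4 : ((N ⊔ M : Subgroup G) : Set G) = (N : Set G) * (M : Set G) := mul_normal N M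
  rw [← h4] at h3
  exact h3.to_subtype

theorem fcore_directed : DirectedOn (· ≤ ·) {N : Subgroup G | N.Normal ∧ Finite N} := by
  rintro N ⟨hN, hN'⟩ M ⟨hM, hM'⟩
  exact ⟨N ⊔ M, sup_finite_normal hN hM hN' hM', le_sup_left, le_sup_right⟩

theorem mem_fcore {g : G} : g ∈ fcore G ↔ ∃ N : Subgroup G, (N.Normal ∧ Finite N) ∧ g ∈ N := by
  unfold fcore
  have h : ({N : Subgroup G | N.Normal ∧ Finite N}).Nonempty := ⟨⊥, normal_bot, inferInstance⟩
  rw [mem_sSup_of_directedOn h fcore_directed]
  rfl

instance fcore_normal : (fcore G).Normal := by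
  refine ⟨fun x hx g => ?_⟩
  obtain ⟨N, hN, hxN⟩ := mem_fcore.1 hx
  exact mem_fcore.2 ⟨N, hN, hN.1.conj_mem x hxN g⟩

theorem fcore_finite [Group.FG G] (hF : ∀ H : Subgroup G, Finite H ∨ H.FiniteIndex) :
    Finite (fcore G) := by
  rcases hF (fcore G) with h | h
  · exact h
  · have h1 : Group.FG (fcore G) := inferInstance
    have h2 : (fcore G).FG := (Group.fg_iff_subgroup_fg _).1 h1
    obtain ⟨S, hS⟩ := h2
    have h3 : ∀ T : Finset G, (T : Set G) ⊆ fcore G →
        ∃ N : Subgroup G, (N.Normal ∧ Finite N) ∧ (T : Set G) ⊆ N := by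
      classical
      intro T
      induction T using Finset.induction_on with
      | empty => intro _; exact ⟨⊥, ⟨normal_bot, inferInstance⟩, by simp⟩
      | insert a T ha ih =>
        intro hT
        rw [Finset.coe_insert] at hT
        obtain ⟨N, hN, hTN⟩ := ih ((Set.subset_insert a _).trans hT)
        obtain ⟨M, hM, haM⟩ := mem_fcore.1 (hT (Set.mem_insert a _))
        refine ⟨N ⊔ M, sup_finite_normal hN.1 hM.1 hN.2 hM.2, ?_⟩
        rw [Finset.coe_insert]
        rintro x (rfl | hx)
        · exact mem_sup_right haM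
        · exact mem_sup_left (hTN hx)
    obtain ⟨N, hN, hSN⟩ := h3 S (by rw [← hS]; exact subset_closure)
    have h4 : fcore G ≤ N := by rw [← hS, closure_le]; exact hSN
    have := hN.2
    exact Finite.of_injective _ (inclusion_injective h4)

instance fcore_char : (fcore G).Characteristic := by
  rw [characteristic_iff_map_le]
  rintro φ _ ⟨x, hx, rfl⟩
  obtain ⟨N, hN, hxN⟩ := mem_fcore.1 hx
  refine mem_fcore.2 ⟨N.map φ.toMonoidHom, ⟨hN.1.map _ φ.surjective, ?_⟩, ⟨x, hxN, rfl⟩⟩
  have := hN.2
  exact ((Set.toFinite (N : Set G)).image φ).to_subtype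

theorem le_fcore {N : Subgroup G} (hN : N.Normal) (h : Finite N) : N ≤ fcore G :=
  le_sSup ⟨hN, h⟩

/-- A group with trivial finite core, all of whose subgroups are finite or of finite index, is
hereditarily just infinite if it is finitely generated, infinite and torsion. -/
theorem hji [Group.FG G] [hinf : Infinite G] (ht : ∀ g : G, IsOfFinOrder g)
    (hF : ∀ H : Subgroup G, Finite H ∨ H.FiniteIndex)
    (hcore : ∀ N : Subgroup G, N.Normal → Finite N → N = ⊥) (H : Subgroup G) [hH : H.FiniteIndex]
    (L : Subgroup H) (hL : L.Normal) (hne : L ≠ ⊥) : L.FiniteIndex := by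
  -- it suffices that `L` is infinite
  have key : ¬ Finite L := by
    intro hfin
    set N := H.normalCore with hN
    have hNfi : N.FiniteIndex := inferInstance
    have hNn : N.Normal := inferInstance
    -- `L ∩ N` is trivial
    have hNinf : ¬ Finite N := by
      intro h
      have h4 : Nat.card N * N.index = Nat.card G := card_mul_index _
      have h5 : Nat.card G ≠ 0 := by
        rw [← h4]; exact mul_ne_zero Nat.card_pos.ne' hNfi.index_ne_zero
      exact hinf.not_finite (Nat.finite_of_card_ne_zero h5)
    -- the finite core of `N` is trivial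
    have hFN : ∀ K : Subgroup N, Finite K ∨ K.FiniteIndex := by
      intro K
      rcases hF (K.map N.subtype) with h | h
      · left
        exact Finite.of_injective (fun x : K => (⟨(x : N), x, x.2, rfl⟩ : K.map N.subtype))
          (fun a b hab => by
            have h9 := congrArg Subtype.val hab
            exact Subtype.ext (Subtype.ext h9))
      · right
        refine ⟨?_⟩
        have h1 := h.index_ne_zero
        rw [index_map_subtype] at h1
        exact left_ne_zero_of_mul h1
    have hNfg : Group.FG N := inferInstance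
    have hcN : Finite (fcore N) := fcore_finite hFN
    have hcN' : (fcore N).map N.subtype = ⊥ := by
      apply hcore
      · exact ConjAct.normal_of_characteristic_of_normal
      · exact ((Set.toFinite (fcore N : Set N)).image N.subtype).to_subtype
    have hint : ∀ x : G, x ∈ L.map H.subtype → x ∈ N → x = 1 := by
      intro x hx hxN
      have hNH : N ≤ H := normalCore_le H
      have h1 : ((L.map H.subtype).subgroupOf N).Normal := by
        refine ⟨fun y hy n => ?_⟩
        rw [mem_subgroupOf] at hy ⊢
        obtain ⟨l, hl, hly⟩ := hy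
        exact ⟨⟨n, hNH n.2⟩ * l * ⟨n, hNH n.2⟩⁻¹, hL.conj_mem l hl _, by
          show (n : G) * (l : G) * (n : G)⁻¹ = (n : G) * (y : G) * (n : G)⁻¹
          rw [show (l : G) = (y : G) from hly]⟩
      have h2 : Finite ((L.map H.subtype).subgroupOf N) := by
        have h3 : ((L.map H.subtype : Subgroup G) : Set G).Finite :=
          (Set.toFinite (L : Set H)).image H.subtype
        have h4 := h3.to_subtype
        exact Finite.of_injective (fun y : (L.map H.subtype).subgroupOf N =>
          (⟨((y : N) : G), y.2⟩ : (L.map H.subtype : Subgroup G)))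
          (fun a b hab => by
            have h9 := congrArg Subtype.val hab
            exact Subtype.ext (Subtype.ext h9))
      have h5 := le_fcore h1 h2
      have h6 : (⟨x, hxN⟩ : N) ∈ fcore N := h5 hx
      have h7 : x ∈ (fcore N).map N.subtype := ⟨⟨x, hxN⟩, h6, rfl⟩
      rwa [hcN', mem_bot] at h7
    have hcent : ∀ x ∈ L.map H.subtype, x ∈ centralizer (N : Set G) := by
      rintro _ ⟨l, hl, rfl⟩
      rw [mem_centralizer_iff]
      intro n hn
      have hnH : n ∈ H := normalCore_le H hn
      have h1 : n * (l : G) * n⁻¹ * (l : G)⁻¹ ∈ L.map H.subtype :=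
        mul_mem ⟨⟨n, hnH⟩ * l * ⟨n, hnH⟩⁻¹, hL.conj_mem l hl _, rfl⟩
          (inv_mem ⟨l, hl, rfl⟩)
      have h2 : n * (l : G) * n⁻¹ * (l : G)⁻¹ ∈ N := by
        have h3 : n * ((l : G) * n⁻¹ * (l : G)⁻¹) ∈ N :=
          mul_mem hn (hNn.conj_mem _ (inv_mem hn) _)
        simpa [mul_assoc] using h3
      have h4 := hint _ h1 h2
      rw [mul_inv_eq_one, mul_inv_eq_iff_eq_mul] at h4
      exact h4
    have hCn : (centralizer (N : Set G)).Normal := inferInstance
    have hC1 : centralizer (N : Set G) ≠ ⊥ := by
      intro h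
      apply hne
      rw [eq_bot_iff]
      intro l hl
      have h1 := hcent l ⟨l, hl, rfl⟩
      rw [h, mem_bot] at h1
      exact mem_bot.2 (Subtype.ext h1)
    have hCfi : (centralizer (N : Set G)).FiniteIndex := by
      rcases hF (centralizer (N : Set G)) with h | h
      · exact absurd (hcore _ hCn h) hC1
      · exact h
    have hAfi : (N ⊓ centralizer (N : Set G)).FiniteIndex := inferInstance
    have hfinG := finite_of_abelian_index ht (N ⊓ centralizer (N : Set G)) (by
      rintro ⟨x, hxN, hxC⟩ ⟨y, hyN, hyC⟩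
      apply Subtype.ext
      exact mem_centralizer_iff.1 hyC x hxN)
    exact hinf.not_finite hfinG
  rcases hF (L.map H.subtype) with h | h
  · exfalso
    apply key
    exact Finite.of_injective (fun x : L => (⟨(x : H), x, x.2, rfl⟩ : L.map H.subtype))
      (fun a b hab => by
        have := congrArg Subtype.val hab
        exact Subtype.ext (Subtype.ext this))
  · refine ⟨?_⟩
    have h1 := h.index_ne_zero
    rw [index_map_subtype] at h1
    exact left_ne_zero_of_mul h1

/-- Residual finiteness. -/
def RF (G : Type u) [Group G] : Prop :=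
  ∀ g : G, g ≠ 1 → ∃ N : Subgroup G, N.Normal ∧ N.FiniteIndex ∧ g ∉ N

theorem RF.quot (h : RF G) (M : Subgroup G) [hM : M.Normal] [hf : Finite M] : RF (G ⧸ M) := by
  intro q hq
  obtain ⟨g, rfl⟩ := QuotientGroup.mk'_surjective M q
  have hg : g ∉ M := fun h => hq ((QuotientGroup.eq_one_iff g).2 h)
  have h1 : ∀ m : M, ∃ N : Subgroup G, N.Normal ∧ N.FiniteIndex ∧ g * (m : G)⁻¹ ∉ N := by
    intro m
    apply h
    intro h2
    apply hg
    rw [mul_inv_eq_one] at h2
    rw [h2]; exact m.2
  choose N hN1 hN2 hN3 using h1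
  have hK1 : (⨅ m, N m).Normal := normal_iInf_normal hN1
  have hK2 : (⨅ m, N m).FiniteIndex := finiteIndex_iInf hN2
  refine ⟨(⨅ m, N m).map (QuotientGroup.mk' M), hK1.map _ (QuotientGroup.mk'_surjective M), ?_, ?_⟩
  · refine ⟨?_⟩
    rw [← index_comap_of_surjective _ (QuotientGroup.mk'_surjective M)]
    have h2 : (⨅ m, N m) ≤ ((⨅ m, N m).map (QuotientGroup.mk' M)).comap (QuotientGroup.mk' M) :=
      le_comap_map _ _
    exact (finiteIndex_of_le h2).index_ne_zero
  · rintro ⟨n, hn, hng⟩
    have h2 : n⁻¹ * g ∈ M := QuotientGroup.eq.1 hng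
    apply hN3 ⟨_, h2⟩
    have h3 : g * (((⟨n⁻¹ * g, h2⟩ : M) : G))⁻¹ = n := by
      show g * (n⁻¹ * g)⁻¹ = n
      group
    rw [h3]
    exact (mem_iInf.1 hn) _

theorem infinite_quot_finite [hinf : Infinite G] (M : Subgroup G) [hM : M.Normal] [hf : Finite M] :
    Infinite (G ⧸ M) := by
  by_contra hcon
  rw [not_infinite_iff_finite] at hcon
  have h1 : M.FiniteIndex := finiteIndex_of_finite_quotient
  have h4 : Nat.card M * M.index = Nat.card G := card_mul_index _
  have h5 : Nat.card G ≠ 0 := by
    rw [← h4]; exact mul_ne_zero Nat.card_pos.ne' h1.index_ne_zero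
  exact hinf.not_finite (Nat.finite_of_card_ne_zero h5)

theorem quot_dichotomy (hF : ∀ H : Subgroup G, Finite H ∨ H.FiniteIndex) (M : Subgroup G)
    [hM : M.Normal] (H : Subgroup (G ⧸ M)) : Finite H ∨ H.FiniteIndex := by
  rcases hF (H.comap (QuotientGroup.mk' M)) with h | h
  · left
    refine Finite.of_surjective (fun x : H.comap (QuotientGroup.mk' M) =>
      (⟨QuotientGroup.mk' M x, x.2⟩ : H)) ?_
    rintro ⟨q, hq⟩
    obtain ⟨g, rfl⟩ := QuotientGroup.mk'_surjective M q
    exact ⟨⟨g, hq⟩, rfl⟩
  · right
    refine ⟨?_⟩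
    rw [← index_comap_of_surjective _ (QuotientGroup.mk'_surjective M)]
    exact h.index_ne_zero

theorem quot_core_trivial [Infinite G] (hF : ∀ H : Subgroup G, Finite H ∨ H.FiniteIndex)
    [hf : Finite (fcore G)] (N : Subgroup (G ⧸ fcore G)) (hN : N.Normal) (hfin : Finite N) :
    N = ⊥ := by
  have hinf := infinite_quot_finite (fcore G)
  have h1 : (N.comap (QuotientGroup.mk' (fcore G))).Normal := hN.comap _
  rcases hF (N.comap (QuotientGroup.mk' (fcore G))) with h | h
  · have h2 := le_fcore h1 h
    rw [eq_bot_iff]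
    intro q hq
    obtain ⟨g, rfl⟩ := QuotientGroup.mk'_surjective _ q
    exact mem_bot.2 ((QuotientGroup.eq_one_iff g).2 (h2 hq))
  · exfalso
    have h2 := h.index_ne_zero
    rw [index_comap_of_surjective _ (QuotientGroup.mk'_surjective _)] at h2
    have h4 : Nat.card N * N.index = Nat.card (G ⧸ fcore G) := card_mul_index _
    have h5 : Nat.card (G ⧸ fcore G) ≠ 0 := by
      rw [← h4]; exact mul_ne_zero Nat.card_pos.ne' h2
    exact hinf.not_finite (Nat.finite_of_card_ne_zero h5)

end

end Pool.Agent.V11238.MG
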